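import Pool.Agent.helper1.UN.Defs3

/-!
# Project UN (MP_cf4097_nt), spec 3: ALL UNITARY HECKE CHARACTERS

RULES. Row `XXX`: file `Pool/Agent/<seat>/UN/XXX.lean`, `import Pool.Agent.helper1.UN.Spec3` (plus library files named in the
docstring), `set_option autoImplicit false`, `namespace Pool.Agent.UN`, theorem line as in the lock note (any other `_stmt` of the UN specs may be
added as a hypothesis, no circles). Auxiliary lemmas are prefixed `XXX_`. No straight double quotes, no convert / congr!. Land, note DONE + path,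
one line to helper1. Most rows are ADAPTATIONS of rows of Spec / Spec2: `HChar f χ` becomes `HCharG f χ τ m`, `t` becomes `0`
(`ph 0 u = 1`), `QQ f t` becomes `QG f τ m 0`, `1 + |t|` becomes a bound `T` of all `|τ w| + |m w|`, `χ((x))` becomes `G x * Ar τ m x` with the
periodic function `G` of row HGC. Case B (SHF is here; COVN STR TB3 PT3): spec of helper10.
-/

set_option autoImplicit false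

open NumberField Complex MeasureTheory

namespace Pool.Agent.UN

/-! ## Part 0: reductions -/

/-- **HGC** (short). `G x = χ((x)) * conj (Ar τ m x)` for `x ≠ 0`, `G 0 = 0`. `‖Ar τ m x‖ = 1` for `x ≠ 0`, `Ar` multiplicative, `Ar 1 = 1`. -/
def HGC_stmt : Prop := ∀ (K : Type) [Field K] [NumberField K] (f : Ideal (𝓞 K)) (χ : Ideal (𝓞 K) → ℂ)
  (τ : InfinitePlace K → ℝ) (m : InfinitePlace K → ℤ), HCharG f χ τ m → HM f χ ∧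
  (∀ x : 𝓞 K, x ≠ 0 → ‖Ar τ m x‖ = 1) ∧
  ∃ G : 𝓞 K → ℂ, GCP f G ∧ ∀ x : 𝓞 K, x ≠ 0 → χ (Ideal.span {x}) = G x * Ar τ m x

/-- **QGB** (short). Bounds of the conductor (all factors are `≥ 1`; `∑ mult = n`). uses: PRO. -/
def QGB_stmt : Prop := ∀ (K : Type) [Field K] [NumberField K] (f : Ideal (𝓞 K)) (τ : InfinitePlace K → ℝ)
  (m : InfinitePlace K → ℤ) (t : ℝ), f ≠ ⊥ → 1 ≤ QG f τ m t ∧ Nm f ≤ QG f τ m t ∧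
  QG f τ m t = QG f (fun w => t + τ w) m 0 ∧
  (∀ w, Nm f * (1 + |t + τ w| + |(m w : ℝ)|) ≤ QG f τ m t) ∧
  ∀ A : ℝ, 1 ≤ A → (∀ w, 1 + |t + τ w| + |(m w : ℝ)| ≤ A) → QG f τ m t ≤ Nm f * A ^ Module.finrank ℚ K

/-- **TWI** (short-medium). Twisting by `N^(-it)`. uses: PRO. `Ar (t + τ) m x = Ar τ m x * ph t (log N(x))` for `x ≠ 0` because `∑ mult w * log (w x) = log N(x)`. (`a = ⊥`: `χ ⊥ = 0`.) -/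
def TWI_stmt : Prop := ∀ (K : Type) [Field K] [NumberField K] (f : Ideal (𝓞 K)) (χ : Ideal (𝓞 K) → ℂ)
  (τ : InfinitePlace K → ℝ) (m : InfinitePlace K → ℤ) (t : ℝ), HCharG f χ τ m →
  HCharG f (fun a => χ a * ph t (Real.log (Nm a))) (fun w => t + τ w) m ∧
  ∀ (X : ℝ) (V : ℝ → ℂ), SS χ t X V = SS (fun a => χ a * ph t (Real.log (Nm a))) 0 X V

/-- **TWL** (short-medium). Twisting of the L-function: `L(s + it)`, root number `c q^(-it)`, `q = D N(f)`; series: `N(a)^(-s-it) = N(a)^(-s) ph t (log N(a))` for `N(a) ≥ 1`. uses: PRO. -/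
def TWL_stmt : Prop := ∀ (K : Type) [Field K] [NumberField K] (f : Ideal (𝓞 K)) (χ : Ideal (𝓞 K) → ℂ)
  (τ : InfinitePlace K → ℝ) (m : InfinitePlace K → ℤ) (t : ℝ) (L : ℂ → ℂ), HCharG f χ τ m → HLG f χ τ m L →
  HLG f (fun a => χ a * ph t (Real.log (Nm a))) (fun w => t + τ w) m (fun s => L (s + t * I))

/-- **SHF** (short). The averages do not change if `k` is shifted by `e` with `∑ mult w * e w = 0`: `Rel (k + e) ↔ Rel k`, and `KK K R + e ⊆ KK K (R + A)`, `A = max |e w|`; `f ≥ 0`. -/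
def SHF_stmt : Prop := ∀ (K : Type) [Field K] [NumberField K] (f : (InfinitePlace K → ℤ) → ℝ) (A : ℝ)
  (e : InfinitePlace K → ℤ), (∀ k, 0 ≤ f k) → (∑ w, (w.mult : ℤ) * e w = 0) → AB K f A →
  AB K (fun k => f (k + e)) A

/-- **SUMM** (short). As row SUM (Pool/Agent/helper27/UN/SUM.lean): only the properties `HM` of `χ` are used. -/
def SUMM_stmt : Prop := ∀ (K : Type) [Field K] [NumberField K] (f : Ideal (𝓞 K)) (χ : Ideal (𝓞 K) → ℂ)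
  (b : ClassGroup (𝓞 K) → Ideal (𝓞 K)) (t X : ℝ) (V : ℝ → ℂ), HM f χ → Rep b → (∀ c, b c ⊔ f = ⊤) →
  0 < X → VV V → ‖SS χ t X V‖ ≤ ∑ c, ‖∑ᶠ I ∈ Pr (b c), gg χ t (X * Nm (b c)) V I‖

/-- **TOTM** (short-medium). As row TOT (Pool/Agent/helper31/UN/TOT.lean), with SUMM, and with shifted boxes `k + e i` (SHF). uses: A1 A2 ABO SHF SUMM SPL IDN MON PRO FIN0. -/
def TOTM_stmt : Prop := ∀ (n : ℕ) (ε : ℝ), 1 ≤ n → 0 < ε → ∃ C : ℝ, 1 ≤ C ∧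
  ∀ (K : Type) [Field K] [NumberField K], Module.finrank ℚ K = n →
  ∀ (f : Ideal (𝓞 K)) (χ : Ideal (𝓞 K) → ℂ) (b : ClassGroup (𝓞 K) → Ideal (𝓞 K)) (t X : ℝ) (V : ℝ → ℂ)
    (ι : Type) (S : Finset ι) (a s : ι → ℝ) (m : ι → Ideal (𝓞 K)) (e : ι → InfinitePlace K → ℤ),
    HM f χ → Rep b → (∀ c, b c ⊔ f = ⊤) → 0 < X → VV V →
    (∀ i ∈ S, 0 ≤ a i ∧ 0 < s i ∧ m i ≠ ⊥ ∧ ∑ w, (w.mult : ℤ) * e i w = 0) →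
    (∀ c (k : InfinitePlace K → ℤ), Rel k → ‖TT (b c) (gg χ t (X * Nm (b c)) V) k‖ ≤
      ∑ i ∈ S, a i * nB (m i * b c) (X * Nm (b c)) (k + e i) (s i)) →
    ‖SS χ t X V‖ ≤ C * ∑ i ∈ S, a i * (s i ^ n * X / Nm (m i)) ^ (1 + ε)

/-- **TRIM** (short). As row TRI (Pool/Agent/helper76/UN/TRI.lean). -/
def TRIM_stmt : Prop := ∀ (n : ℕ) (ε : ℝ), 1 ≤ n → 0 < ε → ∃ C : ℝ, 1 ≤ C ∧
  ∀ (K : Type) [Field K] [NumberField K], Module.finrank ℚ K = n →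
  ∀ (f : Ideal (𝓞 K)) (χ : Ideal (𝓞 K) → ℂ) (t X : ℝ) (V : ℝ → ℂ), HM f χ → 0 < X → VV V →
    ‖SS χ t X V‖ ≤ C * X ^ (1 + ε)

/-- **TRVM** (short). As row TRV (Pool/Agent/helper71/UN/TRV.lean). -/
def TRVM_stmt : Prop := ∀ (K : Type) [Field K] [NumberField K] (f b : Ideal (𝓞 K)) (χ : Ideal (𝓞 K) → ℂ) (t Y : ℝ)
  (V : ℝ → ℂ) (k : InfinitePlace K → ℤ), HM f χ → VV V → 0 < Y →
  ‖TT b (gg χ t Y V) k‖ ≤ nB b Y k (Real.exp 3)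

/-! ## Part 1: the exponential sum (pure) -/

/-- **RKP** (short). `β z^k = r e^(iφ)`, `z = |z| e^(iθ)`, `|sin θ| ≥ δ`: if `|cos φ|, |cos (φ + θ)| < δ/4` then `|sin φ sin θ| ≤ δ/2`, but `|sin φ| ≥ 9/10`. (Or: with `u = β z^k`, `Re(u z) = Re u Re z - Im u Im z`; `|Re u| < (δ/4)|u|`, so `|Im u| ≥ (9/10)|u|`.) -/
def RKP_stmt : Prop := ∀ (β z : ℂ) (δ : ℝ) (k : ℕ), 0 < δ → δ ≤ 1 →
  (β.im = 0 ∧ z.im = 0 ∨ δ * ‖z‖ ≤ |z.im|) →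
  ∃ k' : ℕ, (k' = k ∨ k' = k + 1) ∧ δ / 4 * (‖β‖ * ‖z‖ ^ k') ≤ |(β * z ^ k').re|

/-- **DERW** (short). As row DER (Pool/Agent/helper36/UN/DER.lean), with weights `β_i`: `x ↦ β_i Log(1 + x z_i)` has the derivative `β_i z_i/(1 + x z_i)` (`1 + x z_i` in the slit plane). -/
def DERW_stmt : Prop := ∀ (ι : Type) [Fintype ι] (β z : ι → ℂ) (R : ℝ), (∀ i, R * ‖z i‖ ≤ 1 / 2) →
  ∀ j, ∀ x ∈ Set.Icc 0 R, HasDerivAt (GW β z j) (GW β z (j + 1) x) x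

/-- **SIZW** (short). As row SIZ (Pool/Agent/helper30/UN/SIZ.lean), with weights. -/
def SIZW_stmt : Prop := ∀ (ι : Type) [Fintype ι] (β z : ι → ℂ) (k : ℕ) (ρ μ B x : ℝ), 1 ≤ k → 0 ≤ x → 0 ≤ ρ →
  ρ * (2 * k) ≤ 1 → (∀ i, x * ‖z i‖ ≤ ρ) → (∀ i, ‖z i‖ ≤ μ) → (∀ i, ‖β i‖ ≤ B) →
  |(∑ i, β i * (z i / (1 + (x : ℂ) * z i)) ^ k).re - (∑ i, β i * z i ^ k).re| ≤ 4 * k * ρ * Fintype.card ι * (B * μ ^ k)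

/-- **ONEW** (medium). uses: KDT DIF. As row ONE (Pool/Agent/helper59/UN/ONE.lean; ONE2 for the quadratic factor), for any family `G` of derivatives (`G 0` the phase) and with explicit dependence on `c₁, c₂`: `U = T^(1/(k-2))`,
`f n = ∓ (1/2π) G 0 (r + a(n-1)) ± (quadratic polynomial in n)`; `dd k` kills the polynomial (`k ≥ 3`); DIF: `dd k f n = (1/2π) a^k |G k ξ|` between `l` and `α l`, `l = (c₁/2π) T (aμ)^k = (c₁/2π)(aμU)^k U^(-2)`, `α = c₂/c₁`. KDT: `C α (N l^θ + N^(1-4/2^k) l^(-θ))`, `θ = 1/(2^k-2) ≤ 1`, `N ≤ 2U`,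
`l^θ ≤ C U^(-2θ)`, `l^(-θ) ≤ C c₁⁻¹ U^(2θ)` (as `c₁ ≤ 1`, `2^k c₁/2π ≤ 2^k`). -/
def ONEW_stmt : Prop := ∀ k : ℕ, 3 ≤ k → ∃ C : ℝ, 1 ≤ C ∧
  ∀ (G : ℕ → ℝ → ℝ) (α : ℕ → ℝ) (T μ c₁ c₂ : ℝ) (H a r N : ℕ), 1 ≤ T → 0 < μ → 0 < c₁ → c₁ ≤ 1 → c₁ ≤ c₂ → 1 ≤ a →
    (∀ j, ∀ x ∈ Set.Icc (0 : ℝ) H, HasDerivAt (G j) (G (j + 1) x) x) →
    ((∀ x ∈ Set.Icc (0 : ℝ) H, c₁ * T * μ ^ k ≤ G k x ∧ G k x ≤ c₂ * T * μ ^ k) ∨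
      (∀ x ∈ Set.Icc (0 : ℝ) H, c₁ * T * μ ^ k ≤ -G k x ∧ -G k x ≤ c₂ * T * μ ^ k)) →
    1 ≤ a * μ * T ^ (1 / ((k : ℝ) - 2)) → a * μ * T ^ (1 / ((k : ℝ) - 2)) ≤ 2 →
    (∀ j, j < N → r + a * j < H) → (N : ℝ) ≤ 2 * T ^ (1 / ((k : ℝ) - 2)) →
    ‖∑ n ∈ Finset.Ioc 0 N, ph 1 (G 0 ((r + a * (n - 1) : ℕ) : ℝ)) *
      ee (∑ l ∈ Finset.range 2, α l * ((r + a * (n - 1) : ℕ) : ℝ) ^ (l + 1))‖ ≤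
      C * c₂ * c₁⁻¹ ^ 2 * T ^ ((1 - 1 / 2 ^ k) / ((k : ℝ) - 2))

/-- **COREW** (medium): `theorem COREW (hRKP : RKP_stmt) (hDERW : DERW_stmt) (hSIZW : SIZW_stmt) (hRES : RES_stmt) (hONEW : ONEW_stmt) : COREW_stmt`; compare row CORE (Pool/Agent/helper60/UN/CORE.lean). `k₁ = ⌈1/η⌉₊ + 3` (`≥ 3 + 1/η`), `E = k₁ + 4`, `c₀ = 1/(512 n (k₁+1))`, `μ = δ^E T^(-η)`.
RKP: `k ∈ {k₁, k₁+1}` with `|Re(β₀ z₀^k)| ≥ (δ/4)(T/4)(δμ)^k = (1/16) δ^(k+1) T μ^k`. The others: `≤ 2nT (δ^E μ)^k ≤ (1/64) δ^(k+1) T μ^k` (`δ^(Ek) ≤ δ^(k+2)`, `128 n δ ≤ 1`). For `0 ≤ x ≤ H ≤ T^η`: `x ‖z_i‖ ≤ δ^E =: ρ`, SIZW with `B = 2T`: the change is `≤ 8 k ρ n T μ^k ≤ (1/64) δ^(k+1) T μ^k`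
(`512 k n δ^(E-k-1) ≤ 512 n (k₁+1) δ ≤ 1`, as `E ≥ k + 2` even `k + 3`). So `GW β z k x` has a fixed sign, `c₁ T μ^k ≤ |GW β z k x| ≤ c₂ T μ^k`, `c₁ = (1/32) δ^(k+1)`, `c₂ = 4 n (k-1)!`. `U = T^(1/(k-2)) ≤ T^η`, `a = ⌈1/(μU)⌉₊`, `1 ≤ a μ U ≤ 2`, `N ≤ H/a + 1 ≤ T^η μ U + 1 ≤ 2U`.
RES, ONEW: `‖∑‖ ≤ a C c₂ c₁⁻² U^(1 - 1/2^k) ≤ (2/(μU)) .. = C' δ^(-E - 2(k+1)) T^η U^(-1/2^k)`, `2(k+1) ≤ 2E`; `d = 1/(2^(k₁+1) (k₁+1))`. Constant: sum of those for the two `k`. -/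
theorem COREW_doc : True := trivial

/-- **POLW** (medium). As row POL (Pool/Agent/helper14/UN/POL.lean), with weights: `β Log(1 + hz) = ∑_{j ≤ J} (-1)^(j-1) β (hz)^j/j + R(h)`, `R'(h) = ± β h^J z^(J+1)/(1 + hz)`; `2T n 2 H^J ζ^(J+1) ≤ 4n/H`. -/
def POLW_stmt : Prop := ∀ (n J : ℕ), ∃ C : ℝ, 1 ≤ C ∧ ∀ (ι : Type) [Fintype ι], Fintype.card ι ≤ n →
  ∀ (β z : ι → ℂ) (T ζ : ℝ) (H : ℕ), 1 ≤ H → 1 ≤ T → 0 ≤ ζ → (∀ i, ‖β i‖ ≤ 2 * T) → (∀ i, ‖z i‖ ≤ ζ) →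
  (H : ℝ) * ζ ≤ 1 / 10 → T * ((H : ℝ) * ζ) ^ (J + 1) ≤ 1 →
  ∃ (α : ℕ → ℝ) (B : ℕ → ℂ), (∀ h, ‖B h‖ = 1) ∧ (∀ h, h + 1 ≤ H → ‖B (h + 1) - B h‖ ≤ C / H) ∧
    ∀ h, h ≤ H → ph 1 (GW β z 0 h) = ee (∑ j ∈ Finset.range J, α j * (h : ℝ) ^ (j + 1)) * B h

/-- **BVW** (short). Variation of the phase: `Log(1 + (h+1)z) - Log(1 + hz)` is `≤ 2‖z‖` (derivative `z/(1 + xz)`). -/
def BVW_stmt : Prop := ∀ (n : ℕ) (ι : Type) [Fintype ι], Fintype.card ι ≤ n →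
  ∀ (β z : ι → ℂ) (T ζ : ℝ) (H : ℕ), 0 ≤ T → 0 ≤ ζ → (∀ i, ‖β i‖ ≤ 2 * T) → (∀ i, ‖z i‖ ≤ ζ) → (H : ℝ) * ζ ≤ 1 / 10 →
  ∀ h : ℕ, h + 1 ≤ H → ‖ph 1 (GW β z 0 ((h + 1 : ℕ) : ℝ)) - ph 1 (GW β z 0 h)‖ ≤ 4 * n * T * ζ

/-! ## Part A: the moment method -/

/-- **PSGG** (medium; adaptation of PSG). The factorisation of a primitive `G` (`GCP`): copy of row PSG with `G₀ y` in place of `χ((y))`. -/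
def PSGG_stmt : Prop := ∀ (K : Type) [Field K] [NumberField K] (g h : Ideal (𝓞 K)) (G₀ : 𝓞 K → ℂ),
  GCP (g * h) G₀ → g ⊔ h = ⊤ → (∀ P : Ideal (𝓞 K), P.IsPrime → ¬ P ^ 3 ∣ h) →
  ∃ (ι : Type) (_ : Fintype ι) (A : ι → Type) (_ : ∀ i, CommRing (A i)) (_ : ∀ i, Fintype (A i))
    (π : ∀ i, 𝓞 K →+* A i) (ψ : ∀ i, MulChar (A i) ℂ) (p : ι → ℕ) (G : 𝓞 K → ℂ), GC g G ∧
    (∀ i, (p i).Prime ∧ p i ≤ Fintype.card (A i) ∧ ((p i : ℕ) : 𝓞 K) ≠ 0 ∧ ∀ r, 1 ≤ r → CB (A i) (ψ i) (p i) r) ∧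
    (∏ i, (Fintype.card (A i) : ℝ) = Nm h) ∧ (∀ y : 𝓞 K, (∀ i, π i y = 0) ↔ y ∈ h) ∧
    (∀ y : 𝓞 K, Ideal.span {y} ⊔ h = ⊤ → ∀ i, IsUnit (π i y)) ∧
    (∀ (q : ℕ) (S : Finset ι), q.Prime → (∀ i ∈ S, p i = q) →
      ∏ i ∈ S, (Fintype.card (A i) : ℝ) ≤ (q : ℝ) ^ (2 * Module.finrank ℚ K)) ∧
    ∀ y : 𝓞 K, y ≠ 0 → G₀ y = G y * ∏ i, ψ i (π i y)

open Classical in
/-- **LV3** (medium; adaptation of LV2). uses: HGC PSGG LNA POLW and those of LV2. For `x ∈ An`, `m' ∈ P`: `χ((x + h' m' v)) = G₀(x + h' m' v) Ar(x + h' m' v)`, LNA: `Ar(..) = Ar x * ph 1 (GW (bt τ m) (zw x (m' v)) 0 h')`, `‖bt τ m w‖ ≤ 2T` (`mult ≤ 2`), POLW in place of POL (number of places `≤ n`). -/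
def LV3_stmt : Prop := ∀ (n J r : ℕ) (ε : ℝ), 1 ≤ n → 2 ≤ J → n ≤ r → 1 ≤ r → 0 < ε → ∃ C : ℝ, 1 ≤ C ∧
  ∀ (K : Type) [Field K] [NumberField K], Module.finrank ℚ K = n →
  ∀ (g h b : Ideal (𝓞 K)) (χ : Ideal (𝓞 K) → ℂ) (τ : InfinitePlace K → ℝ) (m : InfinitePlace K → ℤ) (T X : ℝ)
    (V : ℝ → ℂ) (k : InfinitePlace K → ℤ) (v : 𝓞 K)
    (ρ lam : ℝ) (H M : ℕ) (P : Finset ℕ), HCharG (g * h) χ τ m → g ⊔ h = ⊤ →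
    (∀ P : Ideal (𝓞 K), P.IsPrime → ¬ P ^ 3 ∣ h) → b ≠ ⊥ →
    b ⊔ (g * h) = ⊤ → VV V → 0 < X → 1 ≤ T → (∀ w, |τ w| + |(m w : ℝ)| ≤ T) →
    v ∈ Bx b (X * Nm b) k ρ → v ^ 3 ∈ g → Ideal.span {v} ⊔ h = ⊤ →
    0 < ρ → 1 ≤ H →
    (M : ℝ) * H * ρ ≤ 1 / 1000 → T * (Real.exp 3 * M * H * ρ) ^ (J + 1) ≤ 1 →
    Nm h ≤ (H : ℝ) ^ (2 * r) → P.Nonempty → (∀ m ∈ P, m.Prime ∧ m ≤ M ∧ ¬ m ∣ Ideal.absNorm h) →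
    0 < lam →
    ‖TT b (gg χ 0 (X * Nm b) V) k‖ ≤ C * (lam * nB b (X * Nm b) k C +
      lam⁻¹ ^ (2 * r - 1) * (Nm h ^ (1 / 2 + ε) * (H : ℝ) ^ (J * (J + 1) / 2 + 1) / P.card) *
        (1 + nB (h * b) (X * Nm b) k (C * M)))

open Classical in
/-- **LB3** (medium; adaptation of LB2). `Q = QG (f' * a) τ m 0`, `T = Q` (QGB: all `|τ w| + |m w| ≤ Q`), `J = ⌈8n/κ⌉₊` in place of the old `J` (so `T (e³ M H ρ)^(J+1) ≤ Q (e³ Q^(-κ/(4n)))^(J+1) ≤ Q e^(3(J+1)) Q^(-2) ≤ 1`), the other parameters as before with this `J`. -/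
def LB3_stmt : Prop := ∀ (n : ℕ) (κ : ℝ), 1 ≤ n → 0 < κ → κ ≤ 1 / 4 → ∃ (r : ℕ) (C : ℝ), 1 ≤ r ∧ 1 ≤ C ∧
  ∀ (K : Type) [Field K] [NumberField K], Module.finrank ℚ K = n →
  ∀ (f' a q' b : Ideal (𝓞 K)) (χ : Ideal (𝓞 K) → ℂ) (τ : InfinitePlace K → ℝ) (m : InfinitePlace K → ℤ)
    (X lam : ℝ) (V : ℝ → ℂ) (k : InfinitePlace K → ℤ),
    HCharG (f' * a) χ τ m → f' ⊔ a = ⊤ → (∀ P : Ideal (𝓞 K), P.IsPrime → ¬ P ^ 3 ∣ a) → f' ≤ q' → q' ^ 3 ≤ f' →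
    b ≠ ⊥ → b ⊔ (f' * a) = ⊤ → VV V → 0 < X → Rel k →
    0 < lam → C ≤ QG (f' * a) τ m 0 → QG (f' * a) τ m 0 ^ κ ≤ Nm a →
    C * Nm q' * (Dc K) ^ (1 / 2 : ℝ) * QG (f' * a) τ m 0 ^ (κ / 2) ≤ X →
    ‖TT b (gg χ 0 (X * Nm b) V) k‖ ≤ C * (lam * nB b (X * Nm b) k C +
      ∑ h ∈ (dv a).filter (fun h => QG (f' * a) τ m 0 ^ (κ / 4) ≤ Nm h),
        lam⁻¹ ^ (2 * r - 1) * (Nm h ^ (1 / 2 : ℝ) * QG (f' * a) τ m 0 ^ (-(κ / (64 * n)))) *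
          (1 + nB (h * b) (X * Nm b) k (C * QG (f' * a) τ m 0 ^ (κ / (16 * n)))) +
      Nm q' * QG (f' * a) τ m 0 ^ (κ / 2) *
        ∑ e ∈ (dv a).filter (fun e => QG (f' * a) τ m 0 ^ (3 * κ / 8) ≤ Nm e),
          nB (e * (q' * b)) (X * Nm b) k (QG (f' * a) τ m 0 ^ (-(κ / (2 * n)))))

/-- **PL3** (medium; adaptation of PL2), with LB3, TOTM (`e i = 0`), TRIM, HGC, QGB. -/
def PL3_stmt : Prop := ∀ (n : ℕ) (κ : ℝ), 1 ≤ n → 0 < κ → κ ≤ 1 / 4 → ∃ d₀ : ℝ, 0 < d₀ ∧ ∀ d : ℝ, 0 < d → d ≤ d₀ →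
  ∀ ε : ℝ, 0 < ε → ∃ C : ℝ, 1 ≤ C ∧
  ∀ (K : Type) [Field K] [NumberField K], Module.finrank ℚ K = n →
  ∀ (f' a q' : Ideal (𝓞 K)) (χ : Ideal (𝓞 K) → ℂ) (τ : InfinitePlace K → ℝ) (m : InfinitePlace K → ℤ) (X : ℝ)
    (V : ℝ → ℂ), HCharG (f' * a) χ τ m → f' ⊔ a = ⊤ →
    (∀ P : Ideal (𝓞 K), P.IsPrime → ¬ P ^ 3 ∣ a) → f' ≤ q' → q' ^ 3 ≤ f' → VV V →
    Nm q' ≤ QG (f' * a) τ m 0 ^ (1 / 2 - κ) → QG (f' * a) τ m 0 ^ κ ≤ Nm a →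
    (Dc K) ^ (1 / 2 : ℝ) * QG (f' * a) τ m 0 ^ (1 / 2 - d) ≤ X →
    ‖SS χ 0 X V‖ ≤ C * X ^ (1 + ε) * QG (f' * a) τ m 0 ^ (-d)

/-! ## Part B (statement only; spec of helper10) -/

/-- **PT3**: one archimedean parameter is large. -/
def PT3_stmt : Prop := ∀ (n : ℕ) (κ : ℝ), 1 ≤ n → 0 < κ → κ ≤ 1 / 4 → ∃ d₀ : ℝ, 0 < d₀ ∧ ∀ d : ℝ, 0 < d → d ≤ d₀ →
  ∀ ε : ℝ, 0 < ε → ∃ C : ℝ, 1 ≤ C ∧
  ∀ (K : Type) [Field K] [NumberField K], Module.finrank ℚ K = n →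
  ∀ (f q : Ideal (𝓞 K)) (χ : Ideal (𝓞 K) → ℂ) (τ : InfinitePlace K → ℝ) (m : InfinitePlace K → ℤ)
    (w₀ : InfinitePlace K) (X : ℝ) (V : ℝ → ℂ), HCharG f χ τ m → f ≤ q → q ^ 3 ≤ f → VV V →
    (∀ w, |τ w| + |(m w : ℝ)| ≤ |τ w₀| + |(m w₀ : ℝ)|) →
    Nm q ≤ QG f τ m 0 ^ (1 / 2 - κ) → QG f τ m 0 ^ κ ≤ 1 + |τ w₀| + |(m w₀ : ℝ)| →
    (Dc K) ^ (1 / 2 : ℝ) * QG f τ m 0 ^ (1 / 2 - d) ≤ X →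
    ‖SS χ 0 X V‖ ≤ C * X ^ (1 + ε) * QG f τ m 0 ^ (-d)

/-! ## Part C: powerful conductors -/

/-- **AD2G** (short-medium; adaptation of AD2). Copy of row AD2 with `G x` in place of `χ((x))` and `GCP` in place of `HChar`. -/
def AD2G_stmt : Prop := ∀ (K : Type) [Field K] [NumberField K] (f : Ideal (𝓞 K)) (G : 𝓞 K → ℂ) (v : 𝓞 K),
  GCP f G → v ^ 3 ∈ f → ∃ θ : AddChar (𝓞 K ⧸ cl f (v ^ 2)) ℂ, θ.IsPrimitive ∧ (∀ u, ‖θ u‖ = 1) ∧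
    ∀ x x' : 𝓞 K, x * x' - 1 ∈ f → (∀ j : ℕ, j ≤ 2 → x + (j : 𝓞 K) * v ≠ 0) →
      (∀ j j' : ℕ, j ≤ 2 → j' ≤ 2 → ∀ φ : K →+* ℝ,
        0 < φ ((x + (j : 𝓞 K) * v : 𝓞 K) : K) * φ ((x + (j' : 𝓞 K) * v : 𝓞 K) : K)) →
      G (x + ((2 : ℕ) : 𝓞 K) * v) * G x * (starRingEnd ℂ) (G (x + ((1 : ℕ) : 𝓞 K) * v)) ^ 2 =
      θ (Ideal.Quotient.mk _ (-(x' ^ 2)))

/-- **AD3G** (short-medium; adaptation of AD3). -/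
def AD3G_stmt : Prop := ∀ (K : Type) [Field K] [NumberField K] (f : Ideal (𝓞 K)) (G : 𝓞 K → ℂ) (v : 𝓞 K),
  GCP f G → v ^ 4 ∈ f → ∃ θ : AddChar (𝓞 K ⧸ cl f (v ^ 3)) ℂ, θ.IsPrimitive ∧ (∀ u, ‖θ u‖ = 1) ∧
    ∀ x x' : 𝓞 K, x * x' - 1 ∈ f → (∀ j : ℕ, j ≤ 3 → x + (j : 𝓞 K) * v ≠ 0) →
      (∀ j j' : ℕ, j ≤ 3 → j' ≤ 3 → ∀ φ : K →+* ℝ,
        0 < φ ((x + (j : 𝓞 K) * v : 𝓞 K) : K) * φ ((x + (j' : 𝓞 K) * v : 𝓞 K) : K)) →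
      G (x + ((3 : ℕ) : 𝓞 K) * v) * G (x + ((1 : ℕ) : 𝓞 K) * v) ^ 3 *
        (starRingEnd ℂ) (G (x + ((2 : ℕ) : 𝓞 K) * v) ^ 3 * G x) =
      θ (Ideal.Quotient.mk _ (2 * x' ^ 3))

open Classical in
/-- **INN2G** (medium; adaptation of INN2). uses: PPH WY2 LN1 LN2 LNA BVW ABC PRO. The summand is `G(x + hv) Ar(x + hv) WW`, `Ar(x + hv) = Ar x * ph 1 (GW (bt τ m) (zw x v) 0 h)` (LNA), the last factor moves by `≤ 4 n T z` per step (BVW), `z = e³ ρ`, `T H ρ ≤ 1/1000`, `T ≥ 1`. -/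
def INN2G_stmt : Prop := ∀ n : ℕ, 1 ≤ n → ∃ C : ℝ, 1 ≤ C ∧
  ∀ (K : Type) [Field K] [NumberField K], Module.finrank ℚ K = n →
  ∀ (f b : Ideal (𝓞 K)) (χ : Ideal (𝓞 K) → ℂ) (τ : InfinitePlace K → ℝ) (m : InfinitePlace K → ℤ) (G : 𝓞 K → ℂ)
    (T Y : ℝ) (V : ℝ → ℂ) (k : InfinitePlace K → ℤ) (v : 𝓞 K)
    (ρ : ℝ) (H : ℕ) (θ : AddChar (𝓞 K ⧸ cl f (v ^ 2)) ℂ), HM f χ → GCP f G →
    (∀ x : 𝓞 K, x ≠ 0 → χ (Ideal.span {x}) = G x * Ar τ m x) → VV V → 0 < Y → v ∈ Bx b Y k ρ →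
    v ^ 3 ∈ f → 0 < ρ → 3 ≤ H → 1 ≤ T → (∀ w, |τ w| + |(m w : ℝ)| ≤ T) → T * H * ρ ≤ 1 / 1000 →
    (∀ x x' : 𝓞 K, x * x' - 1 ∈ f → (∀ j : ℕ, j ≤ 2 → x + (j : 𝓞 K) * v ≠ 0) →
      (∀ j j' : ℕ, j ≤ 2 → j' ≤ 2 → ∀ φ : K →+* ℝ,
        0 < φ ((x + (j : 𝓞 K) * v : 𝓞 K) : K) * φ ((x + (j' : 𝓞 K) * v : 𝓞 K) : K)) →
      G (x + ((2 : ℕ) : 𝓞 K) * v) * G x * (starRingEnd ℂ) (G (x + ((1 : ℕ) : 𝓞 K) * v)) ^ 2 =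
      θ (Ideal.Quotient.mk _ (-(x' ^ 2)))) →
    ∀ x ∈ An b Y k,
      (Ideal.span {x} ⊔ f ≠ ⊤ →
        ‖∑ h ∈ Finset.range H, FF b (gg χ 0 Y V) k (x + (h : 𝓞 K) * v)‖ = 0) ∧
      ∀ x' : 𝓞 K, x * x' - 1 ∈ f →
        ‖∑ h ∈ Finset.range H, FF b (gg χ 0 Y V) k (x + (h : 𝓞 K) * v)‖ ^ 2 ≤
          C * EW2 H (θ (Ideal.Quotient.mk _ (-(x' ^ 2))))

open Classical in
/-- **INN3G** (medium; adaptation of INN3). As INN2G, `v^4 ∈ f`, WY3. -/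
def INN3G_stmt : Prop := ∀ n : ℕ, 1 ≤ n → ∃ C : ℝ, 1 ≤ C ∧
  ∀ (K : Type) [Field K] [NumberField K], Module.finrank ℚ K = n →
  ∀ (f b : Ideal (𝓞 K)) (χ : Ideal (𝓞 K) → ℂ) (τ : InfinitePlace K → ℝ) (m : InfinitePlace K → ℤ) (G : 𝓞 K → ℂ)
    (T Y : ℝ) (V : ℝ → ℂ) (k : InfinitePlace K → ℤ) (v : 𝓞 K)
    (ρ : ℝ) (H : ℕ) (θ : AddChar (𝓞 K ⧸ cl f (v ^ 3)) ℂ), HM f χ → GCP f G →
    (∀ x : 𝓞 K, x ≠ 0 → χ (Ideal.span {x}) = G x * Ar τ m x) → VV V → 0 < Y → v ∈ Bx b Y k ρ →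
    v ^ 4 ∈ f → 0 < ρ → 3 ≤ H → 1 ≤ T → (∀ w, |τ w| + |(m w : ℝ)| ≤ T) → T * H * ρ ≤ 1 / 1000 →
    (∀ x x' : 𝓞 K, x * x' - 1 ∈ f → (∀ j : ℕ, j ≤ 3 → x + (j : 𝓞 K) * v ≠ 0) →
      (∀ j j' : ℕ, j ≤ 3 → j' ≤ 3 → ∀ φ : K →+* ℝ,
        0 < φ ((x + (j : 𝓞 K) * v : 𝓞 K) : K) * φ ((x + (j' : 𝓞 K) * v : 𝓞 K) : K)) →
      G (x + ((3 : ℕ) : 𝓞 K) * v) * G (x + ((1 : ℕ) : 𝓞 K) * v) ^ 3 *
        (starRingEnd ℂ) (G (x + ((2 : ℕ) : 𝓞 K) * v) ^ 3 * G x) =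
      θ (Ideal.Quotient.mk _ (2 * x' ^ 3))) →
    ∀ x ∈ An b Y k,
      (Ideal.span {x} ⊔ f ≠ ⊤ →
        ‖∑ h ∈ Finset.range H, FF b (gg χ 0 Y V) k (x + (h : 𝓞 K) * v)‖ = 0) ∧
      ∀ x' : 𝓞 K, x * x' - 1 ∈ f →
        ‖∑ h ∈ Finset.range H, FF b (gg χ 0 Y V) k (x + (h : 𝓞 K) * v)‖ ^ 4 ≤
          C * EW3 H (θ (Ideal.Quotient.mk _ (2 * x' ^ 3)))

/-- **SV2G** (medium; adaptation of SV2). uses: HGC AD2G INN2G and EA2 FIB CLF AMG AVG PRO MON FIN0. -/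
def SV2G_stmt : Prop := ∀ n : ℕ, 1 ≤ n → ∃ C : ℝ, 1 ≤ C ∧
  ∀ (K : Type) [Field K] [NumberField K], Module.finrank ℚ K = n →
  ∀ (f b : Ideal (𝓞 K)) (χ : Ideal (𝓞 K) → ℂ) (τ : InfinitePlace K → ℝ) (m : InfinitePlace K → ℤ) (T X : ℝ)
    (V : ℝ → ℂ) (k : InfinitePlace K → ℤ) (v : 𝓞 K)
    (ρ lam : ℝ) (H : ℕ), HCharG f χ τ m → b ≠ ⊥ → b ⊔ f = ⊤ → VV V → 0 < X → v ∈ Bx b (X * Nm b) k ρ →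
    v ^ 3 ∈ f → 0 < ρ → 3 ≤ H → 1 ≤ T → (∀ w, |τ w| + |(m w : ℝ)| ≤ T) → T * H * ρ ≤ 1 / 1000 →
    (H : ℝ) ^ (16 * (n + 1)) ≤ Nm (cl f (v ^ 2)) → 0 < lam → lam ≤ 1 →
    ‖TT b (gg χ 0 (X * Nm b) V) k‖ ≤ C * (lam * nB b (X * Nm b) k C +
      lam⁻¹ ^ 3 * (Nm (cl f (v ^ 2)) * ((1 + Real.log H) / H)) *
        (1 + nB (cl f (v ^ 2) * b) (X * Nm b) k C))

/-- **SV3G** (medium; adaptation of SV3). uses: HGC AD3G INN3G and EA3 FIB CLF AMG AVG PRO MON FIN0. -/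
def SV3G_stmt : Prop := ∀ n : ℕ, 1 ≤ n → ∃ C : ℝ, 1 ≤ C ∧
  ∀ (K : Type) [Field K] [NumberField K], Module.finrank ℚ K = n →
  ∀ (f b : Ideal (𝓞 K)) (χ : Ideal (𝓞 K) → ℂ) (τ : InfinitePlace K → ℝ) (m : InfinitePlace K → ℤ) (T X : ℝ)
    (V : ℝ → ℂ) (k : InfinitePlace K → ℤ) (v : 𝓞 K)
    (ρ lam : ℝ) (H : ℕ), HCharG f χ τ m → b ≠ ⊥ → b ⊔ f = ⊤ → VV V → 0 < X → v ∈ Bx b (X * Nm b) k ρ →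
    v ^ 4 ∈ f → 0 < ρ → 3 ≤ H → 1 ≤ T → (∀ w, |τ w| + |(m w : ℝ)| ≤ T) → T * H * ρ ≤ 1 / 1000 →
    (H : ℝ) ^ (16 * (n + 1)) ≤ Nm (cl f (v ^ 3)) → 0 < lam → lam ≤ 1 →
    ‖TT b (gg χ 0 (X * Nm b) V) k‖ ≤ C * (lam * nB b (X * Nm b) k C +
      lam⁻¹ ^ 3 * (Nm (cl f (v ^ 3)) * ((1 + Real.log H) / H)) *
        (1 + nB (cl f (v ^ 3) * b) (X * Nm b) k C))

open Classical in
/-- **SBG** (medium; adaptation of SB). uses: SV2G SV3G CLF COV MNK TRVM HGC QGB PRO MON FIN0. `Q = QG f τ m 0`, `T = Q^(c/(8n))`. -/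
def SBG_stmt : Prop := ∀ (n i : ℕ) (c : ℝ), 1 ≤ n → (i = 2 ∨ i = 3) → 0 < c → c ≤ 1 / 8 → ∃ C : ℝ, 1 ≤ C ∧
  ∀ (K : Type) [Field K] [NumberField K], Module.finrank ℚ K = n →
  ∀ (f q s b : Ideal (𝓞 K)) (χ : Ideal (𝓞 K) → ℂ) (τ : InfinitePlace K → ℝ) (m : InfinitePlace K → ℤ)
    (X lam : ℝ) (V : ℝ → ℂ) (k : InfinitePlace K → ℤ),
    HCharG f χ τ m → f ≤ q → q ^ (i + 1) ≤ f → q ^ i * s ≤ f → b ≠ ⊥ → b ⊔ f = ⊤ → VV V → 0 < X → Rel k →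
    0 < lam → lam ≤ 1 → C ≤ QG f τ m 0 → (∀ w, 1 + |τ w| + |(m w : ℝ)| ≤ QG f τ m 0 ^ (c / (8 * n))) →
    Nm s ≤ QG f τ m 0 ^ (1 / 2 - c) →
    Nm q ^ i * QG f τ m 0 ^ (i * c) ≤ Nm f → C * Nm q * (Dc K) ^ (1 / 2 : ℝ) * QG f τ m 0 ^ (c / 2) ≤ X →
    ‖TT b (gg χ 0 (X * Nm b) V) k‖ ≤ C * (lam * nB b (X * Nm b) k C +
      ∑ e ∈ (dv f).filter (fun e => QG f τ m 0 ^ (c / 2) ≤ Nm e ∧ Nm e ≤ QG f τ m 0 ^ (1 / 2 - c)),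
        lam⁻¹ ^ 3 * (Nm e * QG f τ m 0 ^ (-(c / (128 * n * (n + 1))))) *
          (1 + nB (e * b) (X * Nm b) k C) +
      Nm q * QG f τ m 0 ^ (c / 2) *
        ∑ e ∈ (dv f).filter (fun e => Nm q * QG f τ m 0 ^ (c / 2) ≤ Nm e),
          nB (e * b) (X * Nm b) k (QG f τ m 0 ^ (-(c / (2 * n)))))

/-- **PSW** (medium; adaptation of PS). uses: SBG TOTM (`e i = 0`) TRIM HGC QGB CLS DVG MNK PRO FIN0. -/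
def PSW_stmt : Prop := ∀ (n i : ℕ) (c : ℝ), 1 ≤ n → (i = 2 ∨ i = 3) → 0 < c → c ≤ 1 / 8 → ∃ d₀ : ℝ, 0 < d₀ ∧
  ∀ d : ℝ, 0 < d → d ≤ d₀ → ∀ ε : ℝ, 0 < ε → ∃ C : ℝ, 1 ≤ C ∧
  ∀ (K : Type) [Field K] [NumberField K], Module.finrank ℚ K = n →
  ∀ (f q s : Ideal (𝓞 K)) (χ : Ideal (𝓞 K) → ℂ) (τ : InfinitePlace K → ℝ) (m : InfinitePlace K → ℤ) (X : ℝ)
    (V : ℝ → ℂ), HCharG f χ τ m → f ≤ q → q ^ (i + 1) ≤ f →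
    q ^ i * s ≤ f → VV V → (∀ w, 1 + |τ w| + |(m w : ℝ)| ≤ QG f τ m 0 ^ (c / (8 * n))) →
    Nm s ≤ QG f τ m 0 ^ (1 / 2 - c) →
    Nm q ≤ QG f τ m 0 ^ (1 / 2 - c) → Nm q ^ i * QG f τ m 0 ^ (i * c) ≤ Nm f →
    (Dc K) ^ (1 / 2 : ℝ) * QG f τ m 0 ^ (1 / 2 - d) ≤ X →
    ‖SS χ 0 X V‖ ≤ C * X ^ (1 + ε) * QG f τ m 0 ^ (-d)

/-- **PGH** (medium; adaptation of PGF): `theorem PGH (hPL3 : PL3_stmt) (hPT3 : PT3_stmt) (hPSW : PSW_stmt) (hDEC : DEC_stmt) (hTWI : TWI_stmt) (hQGB : QGB_stmt) (hPRO : PRO_stmt) : PH_stmt`. First TWI: `τ' w = t + τ w`, `Q = QG f τ' m 0 = QG f τ m t` (QGB). The constants of PGF.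
B: some `w₀` (take the one with the largest `|τ' w| + |m w|`) has `1 + |τ' w₀| + |m w₀| ≥ Q^c'`: by QGB `Nm f ≤ Q^(1-c')`, `Nm q ≤ (Nm f Nm a)^(1/2) ≤ Q^((1 - c' + κ₁)/2) ≤ Q^(1/2 - c'/4)`: PT3 with `κ = c'/4`. C, D: all `1 + |τ' w| + |m w| < Q^c'`: by QGB `Q ≤ Nm f Q^(n c')`; as before. -/
theorem PGH_doc : True := trivial

/-! ## Part F: the L-function -/

/-- the quotient of the Gamma factors -/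
noncomputable def GQG {κ : Type} [Fintype κ] (μ : κ → ℂ) (z : ℂ) : ℂ :=
  ∏ j, (Gammaℝ (1 / 2 + z + μ j) * (Gammaℝ (1 / 2 - z + (starRingEnd ℂ) (μ j)))⁻¹)

/-- **FGMG** (short-medium; adaptation of FGM). `Pool.Agent.WS.GAM` (Pool/Agent/helper98/WS/GAM.lean) with `σ = 1/2 + x`, `w = μ_j + iy`; `|Γ_ℝ(1/2 - z + conj μ)| = |Γ_ℝ(1 - σ + w)|` (conjugate); `1 + |1/2 + w| ≤ (5/2)(1 + |μ_j|)(1 + |y|)`. -/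
def FGMG_stmt : Prop := ∀ n : ℕ, ∃ C : ℝ, 1 ≤ C ∧ ∀ (κ : Type) [Fintype κ], Fintype.card κ = n →
  ∀ μ : κ → ℂ, (∀ j, 0 ≤ (μ j).re) →
  ∀ z : ℂ, 0 < z.re → z.re ≤ 1 → DifferentiableAt ℂ (GQG μ) z ∧
    ‖GQG μ z‖ ≤ C * (∏ j, (1 + ‖μ j‖)) ^ z.re * (1 + |z.im|) ^ n

/-- **FFEG** (short; adaptation of FFE). The functional equation at `s = 1/2 - conj z`. -/
def FFEG_stmt : Prop := ∀ (κ : Type) [Fintype κ] (L : ℂ → ℂ) (q : ℝ) (μ : κ → ℂ) (c : ℂ), 1 ≤ q →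
  (∀ j, 0 ≤ (μ j).re) →
  (∀ s : ℂ, (q : ℂ) ^ (s / 2) * L s * ∏ j, (Gammaℝ (1 - s + (starRingEnd ℂ) (μ j)))⁻¹ =
    c * ((q : ℂ) ^ ((1 - s) / 2) * (starRingEnd ℂ) (L (1 - (starRingEnd ℂ) s)) * ∏ j, (Gammaℝ (s + μ j))⁻¹)) →
  ∀ z : ℂ, 0 < z.re → z.re ≤ 1 →
    L (1 / 2 - (starRingEnd ℂ) z) = c * (starRingEnd ℂ) ((q : ℂ) ^ z * L (1 / 2 + z) * GQG μ z)

/-- **AFEG** (medium; adaptation of AFE): `theorem AFEG (hFKR : FKR_stmt) (hFGMG : FGMG_stmt) (hFRS : FRS_stmt) (hFSW : FSW_stmt) (hFFEG : FFEG_stmt) : AFEG_stmt`. At the point `1/2` (`t = 0`), `S = √(q ∏ (1 + |μ_j|))`. -/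
def AFEG_stmt : Prop := ∀ (n : ℕ) (ε : ℝ), 0 < ε → ε ≤ 1 → ∃ C : ℝ, 1 ≤ C ∧
  ∀ (κ : Type) [Fintype κ], Fintype.card κ = n →
  ∀ (L : ℂ → ℂ) (q : ℝ) (μ : κ → ℂ) (c₀ : ℂ) (ι : Type) (c : ι → ℂ) (N : ι → ℝ),
    1 ≤ q → (∀ j, 0 ≤ (μ j).re) → ‖c₀‖ = 1 → Differentiable ℂ L →
    (∀ A : ℝ, ∃ B : ℝ, ∀ s : ℂ, |s.re| ≤ A → ‖L s‖ ≤ B * (1 + |s.im|) ^ B) →
    (∀ s : ℂ, (q : ℂ) ^ (s / 2) * L s * ∏ j, (Gammaℝ (1 - s + (starRingEnd ℂ) (μ j)))⁻¹ =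
      c₀ * ((q : ℂ) ^ ((1 - s) / 2) * (starRingEnd ℂ) (L (1 - (starRingEnd ℂ) s)) *
        ∏ j, (Gammaℝ (s + μ j))⁻¹)) →
    (∀ i, c i ≠ 0 → 1 ≤ N i) → Summable (fun i => ‖c i‖ * N i ^ (-(3 / 2) : ℝ)) →
    (∀ s : ℂ, s.re = 3 / 2 → L s = ∑' i, c i * (N i : ℂ) ^ (-s)) →
    ∃ V : Bool → ℝ → ℂ,
      (∀ b u, ‖V b u‖ ≤ C * mm (Real.sqrt (q * ∏ j, (1 + ‖μ j‖))) ε u) ∧
      (∀ b u u', |u - u'| ≤ 1 →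
        ‖V b u - V b u'‖ ≤ C * mm (Real.sqrt (q * ∏ j, (1 + ‖μ j‖))) ε u * |u - u'|) ∧
      ‖L (1 / 2)‖ ≤
        ∑ b : Bool, ‖∑' i, c i * ((N i ^ (-(1 / 2) : ℝ) : ℝ) : ℂ) * ph 0 (Real.log (N i)) *
          V b (Real.log (N i))‖

/-- **UHF** (medium; adaptation of UF / UFG, Pool/Agent/helper88/UN/UF.lean): `theorem UHF (hP : PH_stmt) (hAFEG : AFEG_stmt) (hTWI : TWI_stmt) (hTWL : TWL_stmt) (hTRIM : TRIM_stmt) (hQGB : QGB_stmt) (hHGC : HGC_stmt) (hPRO : PRO_stmt) (hFIN0 : FIN0_stmt) (hFSM : FSM_stmt) (hFDY : FDY_stmt)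
(hFGS : FGS_stmt) : UH_stmt`. TWI, TWL: it is enough to treat `t = 0` (`L' s = L (s + it)`, `τ' w = t + τ w`, `Q = QG f τ m t = QG f τ' m 0`). `κ = K →+* ℂ` (`card = n`: `NumberField.Embeddings.card`), `μ σ = i τ'_w + |m_w|/2 + e σ`, `w = mk σ`; `1 + ‖μ σ‖ ≤ 2 (1 + |τ'_w| + |m_w|)`, and
`∏_σ g(mk σ) = ∏_w g(w)^mult` (`InfinitePlace.card_filter_mk_eq`, `Finset.prod_fiberwise`), so `q ∏ (1 + ‖μ‖) ≤ 2^n D Q`; `mm (a S) ε u ≤ a mm S ε u` for `a ≥ 1` and `mm` is increasing in `S`: use `S = √(D Q)` and `C₀ = C 2^n`. The rest as in UF with `t = 0`. -/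
theorem UHF_doc : True := trivial

end Pool.Agent.UN
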