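import Pool.Agent.helper13.UN.Defs4

/-!
# Project UN (MP_cf4097_nt), block H, part U: from the theta functional equation to the Mellin transform

RULES. Row `XXX`: file `Pool/Agent/<seat>/UNH/XXX.lean`, `import Pool.Agent.helper1.UN.SpecU` (plus library files named in the
docstring), `set_option autoImplicit false`, `namespace Pool.Agent.UN`, theorem line as in the lock note (any other `_stmt` of the UN specs may be
added as a hypothesis, no circles). Auxiliary lemmas are prefixed `XXX_`. No straight double quotes, no convert / congr!. Land, note DONE + path,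
one line to helper1. Use `open NumberField Complex MeasureTheory NumberField.Units NumberField.Units.dirichletUnitTheorem` and `open scoped Classical` (needed for the measure on `logSpace K`). Paper proof: /team-store/H9_MP_cf4097_nt_helper13_FE.md, section 4.
-/

set_option autoImplicit false

open NumberField Complex MeasureTheory NumberField.Units NumberField.Units.dirichletUnitTheorem

open scoped Classical

namespace Pool.Agent.UN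

section defsU

variable {K : Type} [Field K] [NumberField K]

/-- the logarithmic vector: `l_w / n_w` for `w ≠ w₀`, and `∑ n_w lv_w = 0` -/
noncomputable def lv (l : logSpace K) (w : InfinitePlace K) : ℝ :=
  if h : w = w₀ then -(∑ w', l w') / (w.mult : ℝ) else l ⟨w, h⟩ / (w.mult : ℝ)

/-- points of `(0, ∞)^places` -/
noncomputable def Yl (ρ : ℝ) (l : logSpace K) (w : InfinitePlace K) : ℝ := ρ * Real.exp (2 * lv l w)

/-- the logarithms of a unit -/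
noncomputable def lu (u : (𝓞 K)ˣ) : logSpace K := logEmbedding K (Additive.ofMul u)

/-- `∑ n_w w(x)²` -/
noncomputable def Sq (x : 𝓞 K) : ℝ := ∑ w : InfinitePlace K, (w.mult : ℝ) * (w (x : K)) ^ 2

variable (K) in
/-- `F` is a bounded fundamental domain of the unit lattice -/
structure FD (F : Set (logSpace K)) : Prop where
  meas : MeasurableSet F
  bdd : Bornology.IsBounded F
  dom : IsAddFundamentalDomain (unitLattice K) F (volume : Measure (logSpace K))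

variable (K) in
/-- `κ₀` is the constant of the change of variables `(t, l) ↦ (t + 2 lv l w)_w` -/
def KP (κ₀ : ℝ) : Prop := 0 < κ₀ ∧ ∀ g : (InfinitePlace K → ℝ) → ℂ,
  (Integrable g → Integrable (fun p : ℝ × logSpace K => g (fun w => p.1 + 2 * lv p.2 w))) ∧
  ∫ p : ℝ × logSpace K, g (fun w => p.1 + 2 * lv p.2 w) = κ₀ * ∫ x, g x

/-- the conclusion of `TFE_stmt` -/
structure TF (f : Ideal (𝓞 K)) (χ : Ideal (𝓞 K) → ℂ) (τ : InfinitePlace K → ℝ) (m : InfinitePlace K → ℤ)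
    (e : InfinitePlace K → ℕ) (δ ε : ℂ) (b : ClassGroup (𝓞 K) → Ideal (𝓞 K))
    (σ : ClassGroup (𝓞 K) ≃ ClassGroup (𝓞 K)) (β : ClassGroup (𝓞 K) → 𝓞 K) : Prop where
  rep : Rep b
  cop : ∀ c, b c ⊔ f = ⊤
  eps : ‖ε‖ = 1
  e1 : ∀ w, e w ≤ 1
  ec : ∀ w, w.IsComplex → e w = 0
  del : δ = 0 ∨ δ = 1 ∧ f = ⊤ ∧ (∀ w, e w = 0 ∧ m w = 0) ∧ ∀ x : 𝓞 K, x ≠ 0 → χ (Ideal.span {x}) = Ar τ m x
  bet : ∀ c, β c ≠ 0 ∧ Nm (Ideal.span {β c}) = Nm (b c) * Nm (b (σ c)) * (Dc K * Nm f)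
  fe : ∀ (c : ClassGroup (𝓞 K)) (y : InfinitePlace K → ℝ), (∀ w, 0 < y w) →
    Th δ (b c) χ τ (aa m e) y =
      ε * (((∏ w : InfinitePlace K, (y w) ^ (-((w.mult : ℝ) / 2))) / (Nm (b c) * (Dc K * Nm f) ^ (1 / 2 : ℝ)) : ℝ) : ℂ) *
        (starRingEnd ℂ) (Th δ (b (σ c)) χ τ (aa m e) (fun w => 1 / ((w ((β c : 𝓞 K) : K)) ^ 2 * y w)))

/-- the integral over the units, summed over the classes -/
noncomputable def Hh (F : Set (logSpace K)) (δ : ℂ) (b : ClassGroup (𝓞 K) → Ideal (𝓞 K)) (χ : Ideal (𝓞 K) → ℂ)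
    (τ : InfinitePlace K → ℝ) (a : InfinitePlace K → ℕ) (ρ : ℝ) : ℂ :=
  ∑ c, ∫ l in F, Th δ (b c) χ τ a (Yl (ρ * Nm (b c) ^ (-(2 / (Module.finrank ℚ K : ℝ)))) l)

end defsU

/-! ## Part 1: logarithmic coordinates -/

/-- **VFX** (short). `ZLattice.isAddFundamentalDomain` for a basis of `unitLattice K` (`Module.Free.chooseBasis ℤ _`, `IsZLattice ℝ (unitLattice K)`), `ZSpan.fundamentalDomain_isBounded`, `ZSpan.fundamentalDomain_measurableSet`. -/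
def VFX_stmt : Prop := ∀ (K : Type) [Field K] [NumberField K], ∃ F : Set (logSpace K), FD K F

/-- **VLV** (short/medium). Elementary properties of `lv`. `lv (lu u) w = log (w u)`: `logEmbedding_component`, `sum_logEmbedding_component`. Surjectivity: `l w' = n_w' s w'`. `∏ (ρ exp(2 lv))^(-n_w/2) = ρ^(-∑ n_w/2) exp(-∑ n_w lv_w)`, `∑ n_w = finrank` (`InfinitePlace.sum_mult_eq`; row PRO). -/
def VLV_stmt : Prop := ∀ (K : Type) [Field K] [NumberField K],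
  (∀ l : logSpace K, ∑ w : InfinitePlace K, (w.mult : ℝ) * lv l w = 0) ∧
  (∀ (l l' : logSpace K) (w : InfinitePlace K), lv (l + l') w = lv l w + lv l' w) ∧
  (∀ (l : logSpace K) (w : InfinitePlace K), lv (-l) w = -lv l w) ∧
  (∀ (u : (𝓞 K)ˣ) (w : InfinitePlace K), lv (lu u) w = Real.log (w ((u : 𝓞 K) : K))) ∧
  (∀ s : InfinitePlace K → ℝ, (∑ w, (w.mult : ℝ) * s w = 0) → ∃ l : logSpace K, ∀ w, lv l w = s w) ∧
  (∀ w : InfinitePlace K, Continuous (fun l : logSpace K => lv l w)) ∧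
  ∀ (ρ : ℝ) (l : logSpace K), 0 < ρ → (∀ w, 0 < Yl ρ l w) ∧
    ∏ w : InfinitePlace K, (Yl ρ l w) ^ (-((w.mult : ℝ) / 2)) = ρ ^ (-((Module.finrank ℚ K : ℝ) / 2))

/-- **VTQ** (short). uses: VLV. `span {u x} = span {x}`, and `w(u x)² Yl ρ l w = w(x)² ρ exp(2 lv l w + 2 log (w u)) = w(x)² Yl ρ (l + lu u) w`. -/
def VTQ_stmt : Prop := ∀ (K : Type) [Field K] [NumberField K] (χ : Ideal (𝓞 K) → ℂ) (τ : InfinitePlace K → ℝ)
  (a : InfinitePlace K → ℕ) (ρ : ℝ) (l : logSpace K) (u : (𝓞 K)ˣ) (x : 𝓞 K),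
  tq χ τ a (Yl ρ l) ((u : 𝓞 K) * x) = tq χ τ a (Yl ρ (l + lu u)) x

/-- **VQB** (short/medium). Size of `QT`. For `u > 0`: `‖u^(ex_w)‖ = u^(a_w/2)` (`Complex.norm_cpow_eq_rpow_re_of_pos`), `u^(a/2) exp(-π n u) ≤ C exp(-n u)` (`π - 1 ≥ 2`, `u^(a/2) exp(-2u)` is bounded: e.g. `u^(a/2) ≤ 1 + u^a`, `u^a/a! ≤ exp u`). Second part: `ex 0 a w = a_w/2` is real. -/
def VQB_stmt : Prop := ∀ (K : Type) [Field K] [NumberField K] (τ : InfinitePlace K → ℝ) (a : InfinitePlace K → ℕ),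
  (∃ C : ℝ, 1 ≤ C ∧ ∀ u : InfinitePlace K → ℝ, (∀ w, 0 < u w) →
    ‖QT τ a u‖ ≤ C * Real.exp (-(∑ w : InfinitePlace K, (w.mult : ℝ) * u w))) ∧
  ∀ u : InfinitePlace K → ℝ, (∀ w, 0 < u w) → QT (fun _ => 0) a u = ((‖QT τ a u‖ : ℝ) : ℂ)

/-- **VLB** (short). uses: PNF, PRO. If all `w(x) < 1` then `|N x| < 1`; so some `w(x) ≥ 1`. Summability: the first part of PNF for `J = b`, `r = 0`, `m = 0`, `e = 0`, `y = r/π` (`Pm = 1`, `Ga y x = exp(-r Sq x)`). -/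
def VLB_stmt : Prop := ∀ (K : Type) [Field K] [NumberField K], (∀ x : 𝓞 K, x ≠ 0 → 1 ≤ Sq x) ∧
  ∀ (b : Ideal (𝓞 K)) (r : ℝ), b ≠ ⊥ → 0 < r → Summable (fun x : b => Real.exp (-(r * Sq (x : 𝓞 K))))

/-- **VQD** (short/medium). uses: VQB, VLV. `F` bounded: `|lv l w| ≤ R` on `F`, `q = exp(-2R)`; `u_w = w(x)² ρ exp(2 lv l w) ≥ q ρ w(x)²` and `u_w > 0` for `x ≠ 0`; `‖χ‖ ≤ 1`; for `x = 0`: `χ ⊥ = 0`. -/
def VQD_stmt : Prop := ∀ (K : Type) [Field K] [NumberField K] (χ : Ideal (𝓞 K) → ℂ) (τ : InfinitePlace K → ℝ)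
  (a : InfinitePlace K → ℕ) (F : Set (logSpace K)), (∀ I, ‖χ I‖ ≤ 1) → χ ⊥ = 0 → Bornology.IsBounded F →
  ∃ q C : ℝ, 0 < q ∧ 1 ≤ C ∧ ∀ (ρ : ℝ) (l : logSpace K) (x : 𝓞 K), 0 < ρ → l ∈ F →
    ‖tq χ τ a (Yl ρ l) x‖ ≤ if x = 0 then 0 else C * Real.exp (-(q * ρ * Sq x))

/-- **VHC** (medium). uses: VQD, VLB, VLV. Dominated convergence. For `ρ ≥ ρ₀ > 0`, `l ∈ F`: `‖tq‖ ≤ C exp(-q ρ₀ Sq x)`, summable over `x ∈ b` (VLB), and `(ρ, l) ↦ tq χ τ a (Yl ρ l) x` is continuous for `ρ > 0` (`Yl > 0`; `cpow` with positive real base): `Th0` is continuous in `(ρ, l)`, bounded on `[ρ₀, ∞) × F`;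
`F` has finite measure. Decay: for `ρ ≥ 1`, `x ≠ 0`: `exp(-q ρ Sq x) ≤ exp(-q (ρ - 1)) exp(-q Sq x)` as `Sq x ≥ 1`: the integral is `≤ C' exp(-q ρ) = O(ρ^r)` (`isLittleO_exp_neg_mul_rpow_atTop`). -/
def VHC_stmt : Prop := ∀ (K : Type) [Field K] [NumberField K] (b : Ideal (𝓞 K)) (χ : Ideal (𝓞 K) → ℂ)
  (τ : InfinitePlace K → ℝ) (a : InfinitePlace K → ℕ) (F : Set (logSpace K)), b ≠ ⊥ → (∀ I, ‖χ I‖ ≤ 1) → χ ⊥ = 0 →
  FD K F →
  (∀ ρ : ℝ, 0 < ρ → IntegrableOn (fun l => Th0 b χ τ a (Yl ρ l)) F) ∧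
  ContinuousOn (fun ρ : ℝ => ∫ l in F, Th0 b χ τ a (Yl ρ l)) (Set.Ioi 0) ∧
  ∀ r : ℝ, (fun ρ : ℝ => ∫ l in F, Th0 b χ τ a (Yl ρ l)) =O[Filter.atTop] (fun x : ℝ => x ^ r)

/-! ## Part 2: the functional equation and the constant term -/

/-- **VHI** (short/medium). uses: VTQ, VLV. Invariance under the unit lattice. `v = lu u` for a unit `u` (`unitLattice` is the image of `logEmbedding`); reindex the sum over `x ∈ b` by `x ↦ u x` (`Equiv.tsum_eq`). Second part (`ρ > 0`): the quotient of the two sides is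
`∏ (w u)^(2 ex_w) = ∏ exp(i n_w τ_w log (w u)) = conj (Ar τ m u) = 1` (`ex τ 0 w = i n_w τ_w/2`, `Ar τ m u = ∏ ph (n_w τ_w) (log (w u))` as `m = 0`). -/
def VHI_stmt : Prop := ∀ (K : Type) [Field K] [NumberField K] (τ : InfinitePlace K → ℝ) (ρ : ℝ) (l v : logSpace K),
  v ∈ unitLattice K →
  (∀ (b : Ideal (𝓞 K)) (χ : Ideal (𝓞 K) → ℂ) (a : InfinitePlace K → ℕ),
    Th0 b χ τ a (Yl ρ (l + v)) = Th0 b χ τ a (Yl ρ l)) ∧
  ∀ m : InfinitePlace K → ℤ, 0 < ρ → (∀ w, m w = 0) → (∀ u : (𝓞 K)ˣ, Ar τ m (u : 𝓞 K) = 1) →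
    ∏ w : InfinitePlace K, ((Yl ρ (l + v) w : ℝ) : ℂ) ^ (ex τ (fun _ => 0) w) =
      ∏ w : InfinitePlace K, ((Yl ρ l w : ℝ) : ℂ) ^ (ex τ (fun _ => 0) w)

/-- **VFN** (short/medium). `l ↦ -(l + s)` and `l ↦ l + s` preserve the measure and map `F` to another fundamental domain; `IsAddFundamentalDomain.setIntegral_eq`. (For the translate: `IsAddFundamentalDomain.vadd_of_comm`-like lemmas, or directly from the definition; for `-F`: the image under the equivalence `l ↦ -l`,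
`IsAddFundamentalDomain.image_of_equiv` / `preimage_of_equiv`.) -/
def VFN_stmt : Prop := ∀ (K : Type) [Field K] [NumberField K] (F : Set (logSpace K)) (f : logSpace K → ℂ)
  (s : logSpace K), FD K F → (∀ v ∈ unitLattice K, ∀ l, f (l + v) = f l) →
  (∫ l in F, f (-(l + s)) = ∫ l in F, f l) ∧ ∫ l in F, f (l + s) = ∫ l in F, f l

/-- **VFE** (medium). uses: VLV, VHI, VFN, PRO, HGC. `n = finrank`, `A = D N(f)`, `N_c = Nm (b c)`, `y = Yl (ρ N_c^(-2/n)) l`: by VLV `∏ y_w^(-n_w/2) = ρ^(-n/2) N_c`, so by `TF.fe` the integrand is `ε ρ^(-n/2) A^(-1/2) conj Th_{σ c}(1/(w(β_c)² y_w))`. `s_w = log (w β_c) - (log N(β_c))/n` has `∑ n_w s_w = 0`, so `s_w = lv s w`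
(VLV), and `1/(w(β_c)² y_w) = Yl (ρ' N_{σ c}^(-2/n)) (-(l + s)) w`, `ρ' = 1/(ρ A^(2/n))`, as `N(β_c) = N_c N_{σ c} A`. The function `l ↦ Th δ (b (σ c)) χ τ a (Yl ρ'' l)` is invariant under `unitLattice` (VHI; `δ = 0`, or `δ = 1`, `a = 0`, `Ar τ m u = χ (span {u}) = χ ⊤ = 1`): VFN (conj of the integral).
Sum over `c`: `σ` is a bijection. -/
def VFE_stmt : Prop := ∀ (K : Type) [Field K] [NumberField K] (f : Ideal (𝓞 K)) (χ : Ideal (𝓞 K) → ℂ)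
  (τ : InfinitePlace K → ℝ) (m : InfinitePlace K → ℤ) (e : InfinitePlace K → ℕ) (δ ε : ℂ)
  (b : ClassGroup (𝓞 K) → Ideal (𝓞 K)) (σ : ClassGroup (𝓞 K) ≃ ClassGroup (𝓞 K)) (β : ClassGroup (𝓞 K) → 𝓞 K)
  (F : Set (logSpace K)), HCharG f χ τ m → TF f χ τ m e δ ε b σ β → FD K F → ∀ ρ : ℝ, 0 < ρ →
  Hh F δ b χ τ (aa m e) ρ =
    ε * (((Dc K * Nm f) ^ (-(1 / 2 : ℝ)) * ρ ^ (-((Module.finrank ℚ K : ℝ) / 2)) : ℝ) : ℂ) *
      (starRingEnd ℂ) (Hh F δ b χ τ (aa m e) (1 / (ρ * (Dc K * Nm f) ^ (2 / (Module.finrank ℚ K : ℝ)))))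

/-- **VCA** (short/medium). uses: VFN, VLV. `E l = exp(i ∑ n_w τ_w lv l w)` is a homomorphism from `logSpace` to the circle, trivial on the unit lattice (hypothesis, `lv (lu u) w = log (w u)`). If `E s ≠ 1` for one `s`: VFN gives `∫ E = E s ∫ E`, so `∫ E = 0`. Otherwise `E = 1` everywhere, so the linear form `∑ n_w τ_w lv l w` takes values in
`2π ℤ`, so it is `0` (scale `l`); with `lv l = ` the vector which is `1/n_w` at `w`, `-1/n_w'` at `w'`: `τ w = τ w'`. -/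
def VCA_stmt : Prop := ∀ (K : Type) [Field K] [NumberField K] (τ : InfinitePlace K → ℝ) (F : Set (logSpace K)),
  FD K F → (∀ u : (𝓞 K)ˣ, cexp (((∑ w : InfinitePlace K, (w.mult : ℝ) * τ w *
    Real.log (w ((u : 𝓞 K) : K)) : ℝ) : ℂ) * I) = 1) →
  (∀ w w', τ w = τ w') ∨
  ∫ l in F, cexp (((∑ w : InfinitePlace K, (w.mult : ℝ) * τ w * lv l w : ℝ) : ℂ) * I) = 0

/-- **VCB** (medium). Orthogonality on the class group. `ψ(I) = χ(I) conj (ph t₀ (log (Nm I)))` (`I ≠ ⊥`) is multiplicative, of modulus `1`, and `1` on principal ideals; so it depends only on the class (`ClassGroup.mk0_eq_mk0_iff`: `span {x} * I = span {y} * I'`). By `NT` some `I₀ ≠ ⊥` has `ψ(I₀) ≠ 1`; `c₀ = [I₀]`: `ψ(b (c * c₀)) = ψ(b c) ψ(I₀)`,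
so `∑ conj ψ(b c) = conj ψ(I₀) ∑ conj ψ(b c)`, and the sum is `0`. -/
def VCB_stmt : Prop := ∀ (K : Type) [Field K] [NumberField K] (χ : Ideal (𝓞 K) → ℂ)
  (b : ClassGroup (𝓞 K) → Ideal (𝓞 K)) (t₀ : ℝ), HM ⊤ χ → Rep b →
  (∀ x : 𝓞 K, x ≠ 0 → χ (Ideal.span {x}) = ph t₀ (Real.log (Nm (Ideal.span {x})))) → NT χ →
  ∑ c, (starRingEnd ℂ) (χ (b c)) * ph t₀ (Real.log (Nm (b c))) = 0

/-- **VCT** (medium). uses: VCA, VCB, VLV, HGC, PRO. The constant terms cancel. `δ = 0`: trivial. `δ = 1`: `f = ⊤`, `a = 0`, `χ((x)) = Ar τ m x`, `m = 0`; `Ar τ m u = χ ⊤ = 1` for units. `t₀ = ∑ n_w τ_w/n`: `∏ (Yl ρ' l w)^(ex_w) = exp(i n t₀ (log ρ')/2) exp(i ∑ n_w τ_w lv l w)`, and for `ρ' = ρ N_c^(-2/n)` the first factor is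
`exp(i n t₀ (log ρ)/2) ph t₀ (log N_c)`. VCA: the integral over `l` is `0`, or all `τ w = t₀`; then `χ((x)) = ∏ ph (n_w t₀) (log (w x)) = ph t₀ (log N(x))` and the sum over `c` is `0` by VCB. -/
def VCT_stmt : Prop := ∀ (K : Type) [Field K] [NumberField K] (f : Ideal (𝓞 K)) (χ : Ideal (𝓞 K) → ℂ)
  (τ : InfinitePlace K → ℝ) (m : InfinitePlace K → ℤ) (e : InfinitePlace K → ℕ) (δ ε : ℂ)
  (b : ClassGroup (𝓞 K) → Ideal (𝓞 K)) (σ : ClassGroup (𝓞 K) ≃ ClassGroup (𝓞 K)) (β : ClassGroup (𝓞 K) → 𝓞 K)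
  (F : Set (logSpace K)), HCharG f χ τ m → NT χ → TF f χ τ m e δ ε b σ β → FD K F → ∀ ρ : ℝ, 0 < ρ →
  ∑ c, ∫ l in F, (starRingEnd ℂ) (χ (b c)) * (δ * ∏ w : InfinitePlace K,
    ((Yl (ρ * Nm (b c) ^ (-(2 / (Module.finrank ℚ K : ℝ)))) l w : ℝ) : ℂ) ^ (ex τ (aa m e) w)) = 0

/-- **VHD** (short/medium). uses: VCT, VHC, VLV, HGC. `Th = conj χ(b) δ ∏ .. + conj χ(b) Th0`; both parts are integrable on `F` (the first is continuous in `l` and bounded on the bounded set `F`), so by VCT `Hh` is the sum of the `Th0` parts. Continuity and decay from VHC, composed with `ρ ↦ ρ N_c^(-2/n)` (`b c ≠ ⊥`, `‖χ‖ ≤ 1` from `HM`). -/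
def VHD_stmt : Prop := ∀ (K : Type) [Field K] [NumberField K] (f : Ideal (𝓞 K)) (χ : Ideal (𝓞 K) → ℂ)
  (τ : InfinitePlace K → ℝ) (m : InfinitePlace K → ℤ) (e : InfinitePlace K → ℕ) (δ ε : ℂ)
  (b : ClassGroup (𝓞 K) → Ideal (𝓞 K)) (σ : ClassGroup (𝓞 K) ≃ ClassGroup (𝓞 K)) (β : ClassGroup (𝓞 K) → 𝓞 K)
  (F : Set (logSpace K)), HCharG f χ τ m → NT χ → TF f χ τ m e δ ε b σ β → FD K F →
  (∀ ρ : ℝ, 0 < ρ → Hh F δ b χ τ (aa m e) ρ = ∑ c, (starRingEnd ℂ) (χ (b c)) *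
    ∫ l in F, Th0 (b c) χ τ (aa m e) (Yl (ρ * Nm (b c) ^ (-(2 / (Module.finrank ℚ K : ℝ)))) l)) ∧
  ContinuousOn (Hh F δ b χ τ (aa m e)) (Set.Ioi 0) ∧
  ∀ r : ℝ, (Hh F δ b χ τ (aa m e)) =O[Filter.atTop] (fun x : ℝ => x ^ r)

/-! ## Part 3: local integrals -/

/-- **VCL** (medium). `(t, l) ↦ (t + 2 lv l w)_w` is linear and bijective (if it is `0` then `∑ n_w` times it gives `n t = 0`, then `lv l = 0`, `l = 0`; dimensions `1 + (r - 1) = r`; or give the inverse: `t = ∑ n_w x_w / n`, `l w' = n_w' (x w' - t)/2`), continuous; the image of the Lebesgue measure is a Haar measure, so `κ₀` times the Lebesgue measure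
(`Measure.isAddHaarMeasure_map..`, `Measure.isAddLeftInvariant_eq_smul`; `0 < κ₀ < ∞`); `integrable_map_equiv`, `integral_map_equiv`. -/
def VCL_stmt : Prop := ∀ (K : Type) [Field K] [NumberField K], ∃ κ₀ : ℝ, KP K κ₀

/-- **VG1** (short/medium). `r = exp t`: `∫_0^∞ r^(z-1) exp(-c r) dr = c^(-z) Γ(z)` (`Complex.integral_cpow_mul_exp_neg_mul_Ioi`), change of variables with `exp` (`integral_image_eq_integral_abs_deriv_smul`, `integrableOn_image_iff_..`; `exp '' univ = Ioi 0`). -/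
def VG1_stmt : Prop := ∀ (c : ℝ) (z : ℂ), 0 < c → 0 < z.re →
  Integrable (fun t : ℝ => cexp (z * t) * ((Real.exp (-(c * Real.exp t)) : ℝ) : ℂ)) ∧
  ∫ t : ℝ, cexp (z * t) * ((Real.exp (-(c * Real.exp t)) : ℝ) : ℂ) = (c : ℂ) ^ (-z) * Complex.Gamma z

/-- **VGN** (short/medium). uses: VG1. The integrand is a product over `w` of `ν_w^(ex_w) exp((ex_w + n_w s/2) x_w) exp(-(π n_w ν_w) exp(x_w))`; `integral_fintype_prod_volume_eq_prod` (`Integrable.fintype_prod`), VG1 with `c = π n_w ν_w`, `z = ex_w + n_w s/2` (positive real part): `ν^(ex) (π n ν)^(-z) = (π n)^(-z) ν^(-n s/2)`. -/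
def VGN_stmt : Prop := ∀ (K : Type) [Field K] [NumberField K] (τ : InfinitePlace K → ℝ) (a : InfinitePlace K → ℕ)
  (ν : InfinitePlace K → ℝ) (s : ℂ), (∀ w, 0 < ν w) → 0 < s.re →
  Integrable (fun x : InfinitePlace K → ℝ => QT τ a (fun w => ν w * Real.exp (x w)) *
    cexp (s / 2 * ((∑ w : InfinitePlace K, (w.mult : ℝ) * x w : ℝ) : ℂ))) ∧
  ∫ x : InfinitePlace K → ℝ, QT τ a (fun w => ν w * Real.exp (x w)) *
    cexp (s / 2 * ((∑ w : InfinitePlace K, (w.mult : ℝ) * x w : ℝ) : ℂ)) =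
    (∏ w : InfinitePlace K, ((ν w : ℝ) : ℂ) ^ (-((w.mult : ℂ) * s / 2))) * gf τ a s

/-- **VLG** (medium). uses: VGN, VQB, VLV, PRO. `KP` with `g y = QT τ a (w(x)² exp(y_w)) exp(s/2 ∑ n_w y_w)`; at `y_w = t + 2 lv l w`: `exp(y_w) = Yl (exp t) l w`, `∑ n_w y_w = n t`; `∏ (w(x)²)^(-n_w s/2) = N(x)^(-s)`. Norms: `‖tq ..‖ = ‖χ((x))‖ QT 0 a (..)` (VQB, second part) and `‖cexp (n s/2 t)‖ = exp(n Re s/2 t)`: the same
with `τ = 0`, `s = Re s` (real, nonnegative); `g₀ = κ₀ ‖gf 0 a (Re s)‖`. -/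
def VLG_stmt : Prop := ∀ (K : Type) [Field K] [NumberField K] (κ₀ : ℝ) (χ : Ideal (𝓞 K) → ℂ)
  (τ : InfinitePlace K → ℝ) (a : InfinitePlace K → ℕ) (s : ℂ), KP K κ₀ → 0 < s.re → ∃ g₀ : ℝ, 0 ≤ g₀ ∧
  ∀ x : 𝓞 K, x ≠ 0 →
    Integrable (fun p : ℝ × logSpace K => tq χ τ a (Yl (Real.exp p.1) p.2) x *
      cexp ((Module.finrank ℚ K : ℂ) * s / 2 * p.1)) ∧
    (∫ p : ℝ × logSpace K, tq χ τ a (Yl (Real.exp p.1) p.2) x * cexp ((Module.finrank ℚ K : ℂ) * s / 2 * p.1) =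
      κ₀ * gf τ a s * (χ (Ideal.span {x}) * (Nm (Ideal.span {x}) : ℂ) ^ (-s))) ∧
    ∫ p : ℝ × logSpace K, ‖tq χ τ a (Yl (Real.exp p.1) p.2) x * cexp ((Module.finrank ℚ K : ℂ) * s / 2 * p.1)‖ =
      g₀ * (‖χ (Ideal.span {x})‖ * Nm (Ideal.span {x}) ^ (-s.re))

/-! ## Part 4: unfolding -/

/-- **VUT** (short/medium). `(𝓞 K)ˣ ≃ (𝓞 K)ˣ ⧸ torsion K × torsion K` (`Subgroup.groupEquivQuotientProdSubgroup`) and `logEmbeddingEquiv` (or `logEmbeddingQuot`, injective with image `unitLattice K`). -/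
def VUT_stmt : Prop := ∀ (K : Type) [Field K] [NumberField K],
  ∃ E : (𝓞 K)ˣ ≃ (unitLattice K) × (torsion K), ∀ u, (((E u).1 : unitLattice K) : logSpace K) = lu u

/-- **VPR** (short/medium). `γ I` = a generator of `I`. `(I, u) ↦ u γ I`: injective (`span {u γ I} = I`; then cancel `γ I ≠ 0`), surjective (`x = u γ(span {x})`: `Ideal.span_singleton_eq_span_singleton`). -/
def VPR_stmt : Prop := ∀ (K : Type) [Field K] [NumberField K] (b : Ideal (𝓞 K)),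
  ∃ (E : (Pr b) × (𝓞 K)ˣ ≃ {x : 𝓞 K // x ∈ b ∧ x ≠ 0}) (γ : Ideal (𝓞 K) → 𝓞 K),
    (∀ J ∈ Pr b, γ J ≠ 0 ∧ Ideal.span {γ J} = J) ∧
    ∀ p : (Pr b) × (𝓞 K)ˣ, ((E p : {x : 𝓞 K // x ∈ b ∧ x ≠ 0}) : 𝓞 K) = (p.2 : 𝓞 K) * γ (p.1 : Ideal (𝓞 K))

/-- **VFS** (medium). `g` integrable on `ℝ × logSpace`. With `G l = ∫ t, g (t, l)`, `G₁ l = ∫ t, ‖g (t, l)‖` (integrable: Fubini, `Integrable.integral_prod_right`..): `∫ p in univ ×ˢ F, g (p.1, p.2 + v) = ∫ l in F, G (l + v)` and `IsAddFundamentalDomain.integral_eq_tsum` (`hasSum`: summable because `∑ ∫_F ‖G(l + v)‖ ≤ ∑ ∫_F G₁(l + v) < ∞`;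
for `G₁ ≥ 0` use `lintegral_eq_tsum` or `integrable_iff..`). The translates `p ↦ (p.1, p.2 + v)` preserve the measure. -/
def VFS_stmt : Prop := ∀ (K : Type) [Field K] [NumberField K] (F : Set (logSpace K)) (g : ℝ × logSpace K → ℂ),
  FD K F → Integrable g →
  (∀ v : unitLattice K, IntegrableOn (fun p : ℝ × logSpace K => g (p.1, p.2 + (v : logSpace K))) (Set.univ ×ˢ F)) ∧
  HasSum (fun v : unitLattice K => ∫ p in (Set.univ : Set ℝ) ×ˢ F, ‖g (p.1, p.2 + (v : logSpace K))‖) (∫ p, ‖g p‖) ∧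
  HasSum (fun v : unitLattice K => ∫ p in (Set.univ : Set ℝ) ×ˢ F, g (p.1, p.2 + (v : logSpace K))) (∫ p, g p)

/-- **VNF** (medium/long). uses: VUT, VPR, VFS. Unfolding. For `x ≠ 0` and a unit `u`: `g (u x) p = g x (p.1, p.2 + lu u)`; so for `I ∈ Pr b` the sum over `u` of `∫ p in univ ×ˢ F, ‖g (u γ_I) p‖` is (VUT: `u ↔ (v, ζ)`, the summand depends only on `v`) `torsionOrder K * ∫ ‖g γ_I‖ = torsionOrder K * J₁ I`, summable over `I`: the family over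
`Pr b × (𝓞 K)ˣ ≃ {x // x ∈ b ∧ x ≠ 0}` (VPR) is summable (`summable_prod_of_nonneg`), the term `x = 0` is `0`. The same for the integrals of `g` (`HasSum.prod_fiberwise`, `Summable.tsum_prod`). `torsionOrder K = Fintype.card (torsion K)` (`tsum` over a finite type). -/
def VNF_stmt : Prop := ∀ (K : Type) [Field K] [NumberField K] (b : Ideal (𝓞 K)) (F : Set (logSpace K))
  (g : 𝓞 K → ℝ × logSpace K → ℂ) (J : Ideal (𝓞 K) → ℂ) (J₁ : Ideal (𝓞 K) → ℝ), FD K F →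
  (∀ (u : (𝓞 K)ˣ) (x : 𝓞 K) (p : ℝ × logSpace K), g ((u : 𝓞 K) * x) p = g x (p.1, p.2 + lu u)) →
  (∀ p, g 0 p = 0) → (∀ x, x ≠ 0 → Integrable (g x)) → (∀ x, x ≠ 0 → ∫ p, g x p = J (Ideal.span {x})) →
  (∀ x, x ≠ 0 → ∫ p, ‖g x p‖ = J₁ (Ideal.span {x})) → Summable (fun I : Pr b => J₁ (I : Ideal (𝓞 K))) →
  (∀ x, IntegrableOn (g x) ((Set.univ : Set ℝ) ×ˢ F)) ∧
  Summable (fun x : b => ∫ p in (Set.univ : Set ℝ) ×ˢ F, ‖g (x : 𝓞 K) p‖) ∧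
  ∑' x : b, ∫ p in (Set.univ : Set ℝ) ×ˢ F, g (x : 𝓞 K) p =
    (torsionOrder K : ℂ) * ∑' I : Pr b, J (I : Ideal (𝓞 K))

/-- **VMX** (short/medium). `t ↦ exp t` in the Mellin transform (`mellin f z = ∫ t in Ioi 0, t^(z-1) • f t`; `integral_image_eq_integral_abs_deriv_smul`, `integrableOn_image_iff_integrableOn_abs_deriv_smul`; `exp(t)^(z-1) exp(t) = exp(z t)`). -/
def VMX_stmt : Prop := ∀ (f : ℝ → ℂ) (z : ℂ), mellin f z = ∫ t : ℝ, cexp (z * t) * f (Real.exp t) ∧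
  (MellinConvergent f z ↔ Integrable (fun t : ℝ => cexp (z * t) * f (Real.exp t)))

/-- **VMC** (medium). uses: VLG, VNF, VTQ, VMX, VFX. One class. `g x p = tq χ τ a (Yl (exp p.1) p.2) x * cexp (n s/2 p.1)` (VTQ: `hu`; `tq` at `0` is `0`), `J I = κ₀ gf χ(I) N(I)^(-s)`, `J₁ I = g₀ ‖χ I‖ N(I)^(-Re s)` (VLG), VNF. `hasSum_integral_of_summable_integral_norm` on `univ ×ˢ F` gives `∫ ∑' = ∑' ∫`, and the sum is integrable
(its norm has the finite integral `∑' ∫ ‖·‖`; measurability: `tsum` of measurable functions / `hasSum` a.e.; e.g. `MeasureTheory.integrable_of_summable_norm_..` or the lintegral bound); Fubini (`setIntegral_prod`, `Measure.prod` restricted to `univ ×ˢ F`) and `∫ l in F, Th0 .. * cexp = (∫ l in F, Th0 ..) * cexp`; VMX. -/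
def VMC_stmt : Prop := ∀ (K : Type) [Field K] [NumberField K] (κ₀ : ℝ) (b : Ideal (𝓞 K)) (χ : Ideal (𝓞 K) → ℂ)
  (τ : InfinitePlace K → ℝ) (a : InfinitePlace K → ℕ) (F : Set (logSpace K)) (s : ℂ), KP K κ₀ → FD K F → b ≠ ⊥ →
  (∀ I, ‖χ I‖ ≤ 1) → χ ⊥ = 0 → 0 < s.re →
  Summable (fun I : Pr b => ‖χ (I : Ideal (𝓞 K))‖ * Nm (I : Ideal (𝓞 K)) ^ (-s.re)) →
  MellinConvergent (fun ρ : ℝ => ∫ l in F, Th0 b χ τ a (Yl ρ l)) ((Module.finrank ℚ K : ℂ) * s / 2) ∧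
  mellin (fun ρ : ℝ => ∫ l in F, Th0 b χ τ a (Yl ρ l)) ((Module.finrank ℚ K : ℂ) * s / 2) =
    (torsionOrder K : ℂ) * (κ₀ * gf τ a s) *
      ∑' I : Pr b, χ (I : Ideal (𝓞 K)) * (Nm (I : Ideal (𝓞 K)) : ℂ) ^ (-s)

/-! ## Part 5: all classes -/

/-- **VZS** (short/medium). uses: IDN, FIN0, PRO. As row FSM (Pool/Agent/helper54/UN/FSM.lean), with any exponent `σ > 1` and IDN for `ε = (σ - 1)/2`. -/
def VZS_stmt : Prop := ∀ (K : Type) [Field K] [NumberField K] (χ : Ideal (𝓞 K) → ℂ) (σ : ℝ), (∀ I, ‖χ I‖ ≤ 1) →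
  χ ⊥ = 0 → 1 < σ → Summable (fun I : Ideal (𝓞 K) => ‖χ I‖ * Nm I ^ (-σ))

/-- **VID** (medium). uses: VZS. `(c, I ∈ Pr (b c)) ↔` nonzero ideals `a`, `I = a * b c`, `c = [a]⁻¹` (`Rep`; `I ≤ b c` iff `b c ∣ I`). `χ(I) = χ(a) χ(b c)`, `‖χ(b c)‖ = 1` (`HM.unit`), `N(I) = N(a) N(b c)`: `conj χ(b c) N_c^s χ(I) N(I)^(-s) = χ(a) N(a)^(-s)`. The term `a = ⊥` is `0`. Summability over `Pr (b c)`: subtype of VZS (`‖χ‖ ≤ 1` from `HM`). -/
def VID_stmt : Prop := ∀ (K : Type) [Field K] [NumberField K] (f : Ideal (𝓞 K)) (χ : Ideal (𝓞 K) → ℂ)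
  (b : ClassGroup (𝓞 K) → Ideal (𝓞 K)) (s : ℂ), HM f χ → Rep b → (∀ c, b c ⊔ f = ⊤) → 1 < s.re →
  (∀ c, Summable (fun I : Pr (b c) => ‖χ (I : Ideal (𝓞 K))‖ * Nm (I : Ideal (𝓞 K)) ^ (-s.re))) ∧
  ∑ c, (starRingEnd ℂ) (χ (b c)) * (Nm (b c) : ℂ) ^ s *
    ∑' I : Pr (b c), χ (I : Ideal (𝓞 K)) * (Nm (I : Ideal (𝓞 K)) : ℂ) ^ (-s) =
    ∑' a : Ideal (𝓞 K), χ a * (Nm a : ℂ) ^ (-s)

/-- **VML** (medium): `theorem VML (hTFE : TFE_stmt) (hVFX : VFX_stmt) (hVFE : VFE_stmt) (hVHD : VHD_stmt) (hVCL : VCL_stmt) (hVMC : VMC_stmt) (hVID : VID_stmt) (hHGC : HGC_stmt) (hPRO : PRO_stmt) : MEL_stmt`. `e, δ, ε, b, σ, β` from TFE (they form a `TF`), `F` from VFX, `κ₀` from VCL, `κ = torsionOrder K * κ₀`, `A = (D N(f))^(1/n)`,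
`h r = Hh F δ b χ τ a (r/A)`. FE: VFE with `ρ = 1/(x A)`: `1/(ρ A²) = x/A`, `(D N f)^(-1/2) (x A)^(n/2) = x^(n/2)`. Mellin: `mellin_comp_mul_left` (or `mellin_comp_mul_right`): `mellin h (n s/2) = A^(n s/2) mellin Hh (n s/2) = (D N f)^(s/2) ..`; on `(0, ∞)` `Hh` is the sum in VHD, `mellin` is additive (MellinConvergent from VMC, scaled:
`MellinConvergent.comp_mul_left`), `mellin (fun ρ => Φ_c (ρ N_c^(-2/n))) (n s/2) = N_c^s mellin Φ_c (n s/2)`; VMC, VID. -/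
theorem VML_doc : True := trivial

end Pool.Agent.UN
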