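import Pool.Agent.helper13.UN.Defs
import Pool.Agent.helper5.LDH.Spec

/-!
# Project UN (MP_cf4097_nt), block T: `CORE_stmt` (the t-aspect)

RULES. Row `XXX`: file `Pool/Agent/<seat>/UN/XXX.lean`, `import Pool.Agent.helper1.UN.SpecT` (plus library files named in the
docstring), `set_option autoImplicit false`, `namespace Pool.Agent.UN`, theorem line exactly as in the lock note (any other
`_stmt` of this file may be added as a hypothesis, no circles). Auxiliary lemmas are prefixed `XXX_`. No straight double quotes,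
no convert / congr!. Land, note DONE + path, one line to helper1.

Theorem: `CORE : CORE_stmt` from `KDT TUR DIF DER SIZ RES`.
-/

set_option autoImplicit false

open Complex

namespace Pool.Agent.UN

/-- iterated differences: `dd 0 f = f`, `dd (k+1) f = dd k (m ↦ f (m+1) - f m)` -/
def dd : ℕ → (ℕ → ℝ) → ℕ → ℝ
  | 0, f => f
  | k + 1, f => dd k (fun m => f (m + 1) - f m)

/-- `GG z 0 x = ∑ log ‖1 + x z_i‖` and `GG z (j+1) x` is its derivative of order `j + 1`: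
`(-1)^j j! Re ∑ (z_i / (1 + x z_i))^(j+1)` -/
noncomputable def GG {ι : Type} [Fintype ι] (z : ι → ℂ) : ℕ → ℝ → ℝ
  | 0, x => ∑ i, Real.log ‖1 + (x : ℂ) * z i‖
  | j + 1, x => (-1) ^ j * (j.factorial : ℝ) * (∑ i, (z i / (1 + (x : ℂ) * z i)) ^ (j + 1)).re

/-- **KDT** (medium). uses: nothing (library: `Pool.Agent.helper61.LDH.WD` (`Pool.Agent.LDH.WD : WD_stmt`), `Pool.Agent.helper90.LDH.V2`
(`V2 : KL_stmt → V2_stmt`), `Pool.Agent.helper18.LDH.KL` (`KL : KL_stmt`); `Pool.Agent.LDH.ee` is the same function as `ee`, by `rfl`).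
The `k`-th derivative test, for differences. Induction on `k`, `θ = 1/(2^k - 2)`, `N = b - a`.
`k = 2`: V2 (`2^2 - 2 = 2`, `4/2^2 = 1`; `C = 20`; `(b - a)^0 = 1`).
`k → k+1`. If `l > 1` or `b = a` trivial (`‖S‖ ≤ N ≤ N l^(..)`). Let `l ≤ 1`, `N ≥ 1`, `u = l^(1/(2^k - 1)) ≤ 1`, `Q = ⌈1/u⌉₊`, `1/u ≤ Q ≤ 2/u`.
If `Q > N`: `N u ≤ 2`, `‖S‖ ≤ N` and `N^(1 - 2/2^k) u^(-1/2) ≥ N^(1/2) u^(-1/2) = N (N u)^(-1/2) ≥ N/2`.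
If `Q ≤ N`: WD with `z n = ee (f n)`; `z (n+q) conj (z n) = ee (g n)`, `g n = f (n+q) - f n`, `dd k g n = ∑ j < q, dd (k+1) f (n+j)` is in
`[q l, α q l]` for `a < n`, `n + k ≤ b - q` (`dd` is additive). Induction hypothesis for `g` on `(a, b-q]`:
`‖S‖² ≤ 2 (N/Q) (N + 2 ∑_{0<q<Q} C α (N (q l)^θ + N^(1 - 4/2^k) (q l)^(-θ)))`. `∑_{q<Q} q^θ ≤ Q^(1+θ)`,
`∑_{0<q<Q} q^(-θ) ≤ 2 Q^(1-θ)` (`(Q/q)^θ ≤ (Q/q)^(1/2)` as `θ ≤ 1/2`, and `∑_{0<q<Q} q^(-1/2) ≤ 2 Q^(1/2)`). So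
`‖S‖² ≤ 2 N²/Q + 4 C α N² (l Q)^θ + 8 C α N^(2 - 4/2^k) (l Q)^(-θ)`, and `u^(2^k-2) ≤ l Q ≤ 2 u^(2^k-2)`, `(lQ)^θ ≤ 2 u`, `(lQ)^(-θ) ≤ 1/u`:
`‖S‖² ≤ 10 C α (N² u + N^(2 - 4/2^k) / u)`. Square roots: `‖S‖ ≤ 4 C α (N u^(1/2) + N^(1 - 2/2^k) u^(-1/2))`, `u^(1/2) = l^(1/(2^(k+1) - 2))`. -/
def KDT_stmt : Prop := ∀ k : ℕ, 2 ≤ k → ∃ C : ℝ, 1 ≤ C ∧ ∀ (f : ℕ → ℝ) (a b : ℕ) (l α : ℝ), a ≤ b → 0 < l → 1 ≤ α →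
  (∀ n, a < n → n + k ≤ b → l ≤ dd k f n ∧ dd k f n ≤ α * l) →
  ‖∑ n ∈ Finset.Ioc a b, ee (f n)‖ ≤ C * α * (((b : ℝ) - a) * l ^ (1 / (2 ^ k - 2) : ℝ) +
    ((b : ℝ) - a) ^ (1 - 4 / 2 ^ k : ℝ) * l ^ (-(1 / (2 ^ k - 2)) : ℝ))

/-- **TUR** (medium). uses: nothing. Turan, by compactness. (a) For fixed `z : Fin n → ℂ` not all `0` some `Re ∑ z_i^k ≠ 0`, `k₀ < k ≤ k₀ + 2n`:
otherwise `∑ (z_i^k + conj z_i^k) = 0` for all these `k`, so `∑ (z_i^(k₀+1) q(z_i) + conj z_i^(k₀+1) q(conj z_i)) = 0` for every polynomial `q` of degree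
`< 2n`. Let `S` be the finite set of all `z_i`, `conj z_i` (`card ≤ 2n`), `y = z_{i₀} ≠ 0`, `q = ∏_{s ∈ S, s ≠ y} (X - s)`, degree `card S - 1 < 2n`: only the terms
with `z_i = y` or `conj z_i = y` remain, each is `y^(k₀+1) q(y) ≠ 0`, their number is `≥ 1`: contradiction. (b) The set of `z : Fin n → ℂ` with all
`‖z i‖ ≤ 1` and some `‖z i‖ ≥ 1/A` is compact, and `∑_{k₀<k≤k₀+2n} |Re ∑ z_i^k|` is continuous and `> 0` on it, so `≥ c' > 0` (if the set is empty, n = 0, any `c`);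
one of the `2n` summands is `≥ c'/(2n)`. (c) general `ι`: transport by `Fintype.equivFinOfCardEq`. -/
def TUR_stmt : Prop := ∀ (n k₀ : ℕ) (A : ℝ), 1 ≤ A → ∃ c : ℝ, 0 < c ∧ ∀ (ι : Type) [Fintype ι], Fintype.card ι = n →
  ∀ z : ι → ℂ, (∀ i, ‖z i‖ ≤ 1) → (∃ i, 1 / A ≤ ‖z i‖) →
    ∃ k : ℕ, k₀ < k ∧ k ≤ k₀ + 2 * n ∧ c ≤ |(∑ i, z i ^ k).re|

/-- **DIF** (short). uses: nothing. Differences of `F(b + a j)` are `a^k` times a value of the `k`-th derivative. Induction on `k` for all families `G` and all `R`: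
`k = 0`: `ξ = b + a m`. `k → k+1`: `G' j x = G j (x + a) - G j x` is such a family on `[0, R - a]`, and
`dd (k+1) (fun j => G 0 (b + a j)) m = dd k (fun j => G' 0 (b + a j)) m = a^k G' k ξ'`, `G' k ξ' = a G (k+1) ξ`, `ξ ∈ (ξ', ξ'+a)` by the mean value theorem
(`exists_hasDerivAt_eq_slope`). -/
def DIF_stmt : Prop := ∀ (G : ℕ → ℝ → ℝ) (R : ℝ), (∀ j, ∀ x ∈ Set.Icc 0 R, HasDerivAt (G j) (G (j + 1) x) x) →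
  ∀ (k m : ℕ) (a b : ℝ), 0 < a → 0 ≤ b → b + a * (m + k) ≤ R →
    ∃ ξ ∈ Set.Icc (0 : ℝ) R, dd k (fun j => G 0 (b + a * j)) m = a ^ k * G k ξ

/-- **DER** (short). uses: nothing. `log ‖w‖ = Re (Complex.log w)`; `w = 1 + x z_i` has `Re w ≥ 1/2 > 0`, so it is in the slit plane, and
`x ↦ Complex.log (1 + x z_i)` has the derivative `z_i/(1 + x z_i)` (`HasDerivAt.clog_real` or `.clog` composed with `ofReal`; real part by `HasDerivAt.real_of_complex` / `reCLM`);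
`d/dx (z/(1+xz))^(j+1) = -(j+1) (z/(1+xz))^(j+2)`. (`j = 0` from `GG z 0`, where `(-1)^0 0! = 1`.) -/
def DER_stmt : Prop := ∀ (ι : Type) [Fintype ι] (z : ι → ℂ) (R : ℝ), (∀ i, R * ‖z i‖ ≤ 1 / 2) →
  ∀ j, ∀ x ∈ Set.Icc 0 R, HasDerivAt (GG z j) (GG z (j + 1) x) x

/-- **SIZ** (short). uses: nothing. `‖x z_i‖ ≤ ρ ≤ 1/(2k)` and `‖z_i‖ ≤ μ`, then for `u = x z_i`: `‖(1+u)^k - 1‖ ≤ (1+ρ)^k - 1 ≤ exp(kρ) - 1 ≤ 2kρ` and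
`‖1+u‖^k ≥ (1-ρ)^k ≥ 1 - kρ ≥ 1/2`, so `‖(1+u)^(-k) - 1‖ ≤ 4kρ`; sum over `i`: `‖∑ (z_i/(1+x z_i))^k - ∑ z_i^k‖ ≤ 4kρ n μ^k`. -/
def SIZ_stmt : Prop := ∀ (ι : Type) [Fintype ι] (z : ι → ℂ) (k : ℕ) (ρ μ x : ℝ), 1 ≤ k → 0 ≤ x → 0 ≤ ρ → ρ * (2 * k) ≤ 1 →
  (∀ i, x * ‖z i‖ ≤ ρ) → (∀ i, ‖z i‖ ≤ μ) →
  |(∑ i, (z i / (1 + (x : ℂ) * z i)) ^ k).re - (∑ i, z i ^ k).re| ≤ 4 * k * ρ * Fintype.card ι * μ ^ k

/-- **RES** (short). uses: nothing. Residue classes mod `a`: for `r < a` put `N = (H + a - 1 - r) / a` = number of `m` with `r + a m < H`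
(so `N ≤ H/a + 1`, and `r + a m < H` for `m < N`). `∑_{h<H} g h = ∑_{r<a} ∑_{m<N_r} g (r + a m)`, the sum over `m < N` is the sum over `n ∈ Ioc 0 N` of
`g (r + a (n-1))`. -/
def RES_stmt : Prop := ∀ (g : ℕ → ℂ) (H a : ℕ) (B : ℝ), 1 ≤ a →
  (∀ r N : ℕ, r < a → (∀ m, m < N → r + a * m < H) → (N : ℝ) ≤ (H : ℝ) / a + 1 →
    ‖∑ n ∈ Finset.Ioc 0 N, g (r + a * (n - 1))‖ ≤ B) →
  ‖∑ h ∈ Finset.range H, g h‖ ≤ a * B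

/-- **ONE** (medium). uses: `KDT_stmt DIF_stmt DER_stmt`. One residue class, for a fixed `k ≥ 3`: `U = T^(1/(k-2))`, `T = |t|`. Hypotheses: all values `GG z k x`,
`0 ≤ x ≤ H`, have the same sign `s` and absolute value between `c₁ μ^k` and `c₂ μ^k`; `H ‖z_i‖ ≤ 1/2`; `1 ≤ a μ U ≤ 2`. Put
`f n = s' (t/2π) GG z 0 (r + a (n-1))` with the sign `s' = ±1` such that the differences `dd k f n` (`n ≥ 1`, `n + k ≤ N`) are positive: by DIF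
(with `G j x`, `m = n - 1`; `dd k (fun n => F (n-1)) n = dd k F (n-1)` for `n ≥ 1`) `dd k f n = (T/2π) a^k |GG z k ξ|`, between `l` and `α l` with
`l = (c₁/2π) T (aμ)^k ∈ [c₁/2π, 2^k c₁/2π] U^(-2)` (because `T = U^(k-2)`) and `α = c₂/c₁`. `‖∑ ph t (φ)‖ = ‖∑ ee (f n)‖` (if the sign is wrong take conjugates).
KDT: `‖∑‖ ≤ C α (N l^θ + N^(1 - 4/2^k) l^(-θ))`, `θ = 1/(2^k-2)`, `N ≤ 2U`, `l^θ ≤ C' U^(-2θ)`, `l^(-θ) ≤ C' U^(2θ)`. The exponents of `U` are `1 - 2θ` and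
`1 - 4/2^k + 2θ`, both `≤ 1 - 1/2^k` for `k ≥ 3`: `4/2^k - 2/(2^k-2) = 2(2^k-4)/(2^k(2^k-2)) ≥ 1/2^k`. -/
def ONE_stmt : Prop := ∀ (k : ℕ) (c₁ c₂ : ℝ), 3 ≤ k → 0 < c₁ → c₁ ≤ c₂ → ∃ C : ℝ, 1 ≤ C ∧
  ∀ (ι : Type) [Fintype ι] (z : ι → ℂ) (t μ : ℝ) (H a r N : ℕ), 1 ≤ |t| → 0 < μ → 1 ≤ a →
    (∀ i, (H : ℝ) * ‖z i‖ ≤ 1 / 2) →
    ((∀ x ∈ Set.Icc (0 : ℝ) H, c₁ * μ ^ k ≤ GG z k x ∧ GG z k x ≤ c₂ * μ ^ k) ∨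
      (∀ x ∈ Set.Icc (0 : ℝ) H, c₁ * μ ^ k ≤ -GG z k x ∧ -GG z k x ≤ c₂ * μ ^ k)) →
    1 ≤ a * μ * |t| ^ (1 / ((k : ℝ) - 2)) → a * μ * |t| ^ (1 / ((k : ℝ) - 2)) ≤ 2 →
    (∀ m, m < N → r + a * m < H) → (N : ℝ) ≤ 2 * |t| ^ (1 / ((k : ℝ) - 2)) →
    ‖∑ n ∈ Finset.Ioc 0 N, ph t (GG z 0 ((r + a * (n - 1) : ℕ) : ℝ))‖ ≤
      C * |t| ^ ((1 - 1 / 2 ^ k) / ((k : ℝ) - 2))

/-- **CORE** (medium). uses: `TUR_stmt SIZ_stmt RES_stmt ONE_stmt`. `k₀ = ⌈1/η⌉₊ + 2`, `K = k₀ + 2n`, `c` from TUR `(n, k₀, A)` (take `min c 1`), `ρ = min (1/20) (c/(8 n K))`,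
`μ = ρ T^(-η)`, `T = |t|`. `z_i/μ` satisfies the hypotheses of TUR: some `k ∈ (k₀, K]` has `|Re ∑ z_i^k| ≥ c μ^k` (and `≤ n μ^k`). For `0 ≤ x ≤ H ≤ T^η`: `x ‖z_i‖ ≤ ρ`, SIZ:
`Re ∑ (z_i/(1+x z_i))^k` differs from `Re ∑ z_i^k` by `≤ 4kρ n μ^k ≤ (c/2) μ^k`, so `GG z k x` has a fixed sign and
`c₁ μ^k ≤ |GG z k x| ≤ c₂ μ^k`, `c₁ = c/2` (`(k-1)! ≥ 1`), `c₂ = 2n (k-1)!`. `U = T^(1/(k-2)) ≤ T^η` (`k - 2 > 1/η`), `a = ⌈1/(μU)⌉₊`: `1/(μU) = T^η/(ρU) ≥ 20`, so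
`1 ≤ a μ U ≤ 2`. `N ≤ H/a + 1 ≤ T^η μ U + 1 = ρ U + 1 ≤ 2U`. RES with ONE: `‖∑‖ ≤ a C U^(1 - 1/2^k) ≤ (2/(μU)) C U^(1-1/2^k) = (2C/ρ) T^η U^(-1/2^k)`
and `U^(-1/2^k) = T^(-1/(2^k (k-2))) ≤ T^(-d)`, `d = 1/(2^K K)`. The constant is the sum (or max) of the constants of ONE over `k ∈ (k₀, K]`. (`GG z 0 h` is the sum in CORE.) -/
def CORE'_stmt : Prop := CORE_stmt

end Pool.Agent.UN
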