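import Pool.Agent.helper1.UN.SpecT
import Pool.Agent.helper61.LDH.WD
import Pool.Agent.helper90.LDH.V2
import Pool.Agent.helper18.LDH.KL

/-!
# Row `un:KDT` (MP_cf4097_nt): the `k`-th derivative test, for differences
-/

set_option autoImplicit false

open Complex Finset

namespace Pool.Agent.UN

theorem KDT_V2 : Pool.Agent.LDH.V2_stmt := Pool.Agent.LDH.V2 Pool.Agent.LDH.KL

theorem KDT_WD : Pool.Agent.LDH.WD_stmt := Pool.Agent.LDH.WD

theorem KDT_ee (x : ℝ) : ee x = Pool.Agent.LDH.ee x := rfl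

theorem KDT_norm (x : ℝ) : ‖ee x‖ = 1 := Pool.Agent.LDH.V2_norm_ee x

theorem KDT_mul (x y : ℝ) : ee x * (starRingEnd ℂ) (ee y) = ee (x - y) := by
  have h : (starRingEnd ℂ) (ee y) = ee (-y) := Pool.Agent.LDH.V2_conj_ee y
  rw [h]
  unfold ee
  rw [← Complex.exp_add]
  congr 1
  push_cast
  ring

theorem KDT_dd_sum (k : ℕ) : ∀ (F : ℕ → ℝ) (q n : ℕ),
    dd k (fun m => ∑ j ∈ range q, F (m + j)) n = ∑ j ∈ range q, dd k F (n + j) := by
  induction k with
  | zero => intro F q n; rfl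
  | succ k ih =>
    intro F q n
    have h1 : dd (k + 1) (fun m => ∑ j ∈ range q, F (m + j)) n =
        dd k (fun m => ∑ j ∈ range q, (fun i => F (i + 1) - F i) (m + j)) n := by
      show dd k (fun m => ∑ j ∈ range q, F (m + 1 + j) - ∑ j ∈ range q, F (m + j)) n = _
      congr 1
      funext m
      rw [← sum_sub_distrib]
      refine sum_congr rfl fun j _ => ?_
      show F (m + 1 + j) - F (m + j) = F (m + j + 1) - F (m + j)
      rw [Nat.add_right_comm]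
    rw [h1]
    exact ih (fun i => F (i + 1) - F i) q n

theorem KDT_dd_shift (k q : ℕ) (f : ℕ → ℝ) (n : ℕ) :
    dd k (fun m => f (m + q) - f m) n = ∑ j ∈ range q, dd (k + 1) f (n + j) := by
  have h1 : (fun m => f (m + q) - f m) =
      fun m => ∑ j ∈ range q, (fun i => f (i + 1) - f i) (m + j) := by
    funext m
    have h := sum_range_sub (fun j => f (m + j)) q
    simp only [Nat.add_zero] at h
    rw [← h]
    refine sum_congr rfl fun j _ => ?_
    rfl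
  rw [h1]
  exact KDT_dd_sum k (fun i => f (i + 1) - f i) q n

theorem KDT_sqrt_sum (m : ℕ) : ∑ j ∈ range m, (1 : ℝ) / Real.sqrt ((j : ℝ) + 1) ≤ 2 * Real.sqrt m := by
  induction m with
  | zero => simp
  | succ m ih =>
    rw [sum_range_succ]
    have h1 : 0 < Real.sqrt ((m : ℝ) + 1) := Real.sqrt_pos.mpr (by positivity)
    have h2 : 0 ≤ Real.sqrt (m : ℝ) := Real.sqrt_nonneg _
    have h3 : Real.sqrt ((m : ℝ) + 1) ^ 2 = m + 1 := Real.sq_sqrt (by positivity)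
    have h4 : Real.sqrt (m : ℝ) ^ 2 = m := Real.sq_sqrt (by positivity)
    have h5 : (1 : ℝ) / Real.sqrt ((m : ℝ) + 1) ≤ 2 * Real.sqrt ((m : ℝ) + 1) - 2 * Real.sqrt m := by
      rw [div_le_iff₀ h1]
      nlinarith [sq_nonneg (Real.sqrt ((m : ℝ) + 1) - Real.sqrt m)]
    push_cast
    linarith

theorem KDT_Ioo (Q : ℕ) (F : ℕ → ℝ) : ∑ q ∈ Ioo 0 Q, F q = ∑ j ∈ range (Q - 1), F (j + 1) := by
  have h : Ioo 0 Q = Ico 1 Q := by
    ext x
    simp only [mem_Ioo, mem_Ico]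
    omega
  rw [h, sum_Ico_eq_sum_range]
  refine sum_congr rfl fun j _ => ?_
  rw [add_comm]

/-- `∑ (q l)^θ ≤ Q (Q l)^θ` -/
theorem KDT_S1 (Q : ℕ) (l θ : ℝ) (hl : 0 < l) (hθ : 0 < θ) :
    ∑ q ∈ Ioo 0 Q, ((q : ℝ) * l) ^ θ ≤ Q * ((Q : ℝ) * l) ^ θ := by
  have h : ∑ q ∈ Ioo 0 Q, ((q : ℝ) * l) ^ θ ≤ ∑ _q ∈ Ioo 0 Q, ((Q : ℝ) * l) ^ θ := by
    refine sum_le_sum fun q hq => ?_
    have hq' := (mem_Ioo.mp hq).2
    refine Real.rpow_le_rpow (by positivity) ?_ hθ.le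
    have : (q : ℝ) ≤ Q := by exact_mod_cast hq'.le
    exact mul_le_mul_of_nonneg_right this hl.le
  refine h.trans ?_
  rw [sum_const, nsmul_eq_mul]
  refine mul_le_mul_of_nonneg_right ?_ (by positivity)
  have : (Ioo 0 Q).card ≤ Q := by
    rw [Nat.card_Ioo]
    omega
  exact_mod_cast this

/-- `∑ (q l)^(-θ) ≤ 2 Q (Q l)^(-θ)` -/
theorem KDT_S2 (Q : ℕ) (l θ : ℝ) (hl : 0 < l) (hθ2 : θ ≤ 1 / 2) :
    ∑ q ∈ Ioo 0 Q, ((q : ℝ) * l) ^ (-θ) ≤ 2 * (Q * ((Q : ℝ) * l) ^ (-θ)) := by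
  rcases Nat.eq_zero_or_pos Q with hQ | hQ
  · subst hQ
    simp
  have hQ' : (0 : ℝ) < Q := by exact_mod_cast hQ
  have h : ∑ q ∈ Ioo 0 Q, ((q : ℝ) * l) ^ (-θ) ≤
      ∑ q ∈ Ioo 0 Q, ((Q : ℝ) * l) ^ (-θ) * (Real.sqrt Q * (1 / Real.sqrt q)) := by
    refine sum_le_sum fun q hq => ?_
    have hq0 := (mem_Ioo.mp hq).1
    have hq1 := (mem_Ioo.mp hq).2
    have hq0' : (0 : ℝ) < q := by exact_mod_cast hq0
    have hq1' : (q : ℝ) ≤ Q := by exact_mod_cast hq1.le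
    have e1 : (q : ℝ) * l = ((Q : ℝ) * l) * ((Q : ℝ) / q)⁻¹ := by
      field_simp
    rw [e1, Real.mul_rpow (by positivity) (by positivity)]
    refine mul_le_mul_of_nonneg_left ?_ (by positivity)
    rw [Real.inv_rpow (by positivity), Real.rpow_neg (by positivity), inv_inv]
    have h1 : (1 : ℝ) ≤ (Q : ℝ) / q := by
      rw [le_div_iff₀ hq0']
      linarith
    refine (Real.rpow_le_rpow_of_exponent_le h1 hθ2).trans ?_
    rw [← Real.sqrt_eq_rpow, Real.sqrt_div hQ'.le]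
    rw [mul_one_div]
  refine h.trans ?_
  rw [← mul_sum, ← mul_sum, KDT_Ioo Q (fun q => 1 / Real.sqrt (q : ℝ))]
  have h2 : ∑ j ∈ range (Q - 1), (1 : ℝ) / Real.sqrt ((j + 1 : ℕ) : ℝ) ≤ 2 * Real.sqrt Q := by
    have h3 := KDT_sqrt_sum (Q - 1)
    have h4 : Real.sqrt ((Q - 1 : ℕ) : ℝ) ≤ Real.sqrt Q :=
      Real.sqrt_le_sqrt (by exact_mod_cast Nat.sub_le Q 1)
    push_cast
    linarith
  have h5 : Real.sqrt (Q : ℝ) * ∑ j ∈ range (Q - 1), (1 : ℝ) / Real.sqrt ((j + 1 : ℕ) : ℝ) ≤ 2 * Q := by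
    have h6 := mul_le_mul_of_nonneg_left h2 (Real.sqrt_nonneg (Q : ℝ))
    have h7 : Real.sqrt (Q : ℝ) * (2 * Real.sqrt Q) = 2 * Q := by
      have := Real.mul_self_sqrt hQ'.le
      linarith
    linarith
  have h8 := mul_le_mul_of_nonneg_left h5 (Real.rpow_nonneg (mul_nonneg hQ'.le hl.le) (-θ))
  linarith

/-- the numbers of the induction step: `E = 2^k - 2`, `l = u^(E+1)` -/
theorem KDT_num (E u Q : ℝ) (hE : 2 ≤ E) (hu : 0 < u) (hu1 : u ≤ 1) (h1 : 1 / u ≤ Q) (h2 : Q ≤ 2 / u) :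
    (Q * u ^ (E + 1)) ^ (1 / E) ≤ 2 * u ∧ (Q * u ^ (E + 1)) ^ (-(1 / E)) ≤ 1 / u := by
  have hE0 : 0 < E := by linarith
  have hQ : 0 < Q := lt_of_lt_of_le (by positivity) h1
  have e1 : u ^ (E + 1) = u ^ E * u := by
    rw [Real.rpow_add hu, Real.rpow_one]
  have hA : Q * u ^ (E + 1) ≤ 2 * u ^ E := by
    rw [e1]
    have : Q * u ≤ 2 := by
      rw [le_div_iff₀ hu] at h2
      exact h2
    have h3 : 0 < u ^ E := Real.rpow_pos_of_pos hu E
    nlinarith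
  have hB : u ^ E ≤ Q * u ^ (E + 1) := by
    rw [e1]
    have : 1 ≤ Q * u := by
      rw [div_le_iff₀ hu] at h1
      exact h1
    have h3 : 0 < u ^ E := Real.rpow_pos_of_pos hu E
    nlinarith
  have e2 : (u ^ E) ^ (1 / E) = u := by
    rw [← Real.rpow_mul hu.le, mul_one_div_cancel hE0.ne', Real.rpow_one]
  constructor
  · have h3 : (Q * u ^ (E + 1)) ^ (1 / E) ≤ (2 * u ^ E) ^ (1 / E) :=
      Real.rpow_le_rpow (by positivity) hA (by positivity)
    have e3 : (2 * u ^ E) ^ (1 / E) = 2 ^ (1 / E) * u := by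
      rw [Real.mul_rpow (by norm_num) (by positivity), e2]
    rw [e3] at h3
    have h4 : (2 : ℝ) ^ (1 / E) ≤ 2 := by
      have h5 : (2 : ℝ) ^ (1 / E) ≤ 2 ^ (1 : ℝ) := by
        refine Real.rpow_le_rpow_of_exponent_le (by norm_num) ?_
        rw [div_le_iff₀ hE0]
        linarith
      simpa using h5
    nlinarith
  · have h3 : 0 < (u ^ E) ^ (1 / E) := by positivity
    have h4 : (u ^ E) ^ (1 / E) ≤ (Q * u ^ (E + 1)) ^ (1 / E) :=
      Real.rpow_le_rpow (by positivity) hB (by positivity)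
    rw [Real.rpow_neg (by positivity), ← one_div]
    rw [e2] at h4
    exact one_div_le_one_div_of_le hu h4

theorem KDT_two_pow (k : ℕ) (hk : 2 ≤ k) : (4 : ℝ) ≤ 2 ^ k := by
  have h : (2 : ℝ) ^ 2 ≤ 2 ^ k := pow_le_pow_right₀ (by norm_num) hk
  linarith

/-- the case `N < Q` -/
theorem KDT_small (N P u : ℝ) (hN : 1 ≤ N) (hu : 0 < u) (hP : Real.sqrt N ≤ P) (h : N * u ≤ 2) :
    N ≤ 2 * (P / Real.sqrt u) := by
  have hu' : 0 < Real.sqrt u := Real.sqrt_pos.mpr hu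
  have hN' : 0 < Real.sqrt N := Real.sqrt_pos.mpr (by linarith)
  have e1 : Real.sqrt N * Real.sqrt N = N := Real.mul_self_sqrt (by linarith)
  have e2 : Real.sqrt u * Real.sqrt u = u := Real.mul_self_sqrt hu.le
  have h1 : Real.sqrt N * Real.sqrt u ≤ 2 := by
    have h2 : (Real.sqrt N * Real.sqrt u) ^ 2 ≤ 2 := by
      have : (Real.sqrt N * Real.sqrt u) ^ 2 = (Real.sqrt N * Real.sqrt N) * (Real.sqrt u * Real.sqrt u) := by ring
      rw [this, e1, e2]
      exact h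
    nlinarith [mul_pos hN' hu']
  have h3 : N * Real.sqrt u ≤ 2 * P := by
    calc N * Real.sqrt u = Real.sqrt N * (Real.sqrt N * Real.sqrt u) := by rw [← mul_assoc, e1]
      _ ≤ Real.sqrt N * 2 := mul_le_mul_of_nonneg_left h1 hN'.le
      _ ≤ 2 * P := by linarith
  rw [← mul_div_assoc, le_div_iff₀ hu']
  exact h3

theorem KDT_step (k : ℕ) (hk : 2 ≤ k) (C : ℝ) (hC : 1 ≤ C)
    (ih : ∀ (f : ℕ → ℝ) (a b : ℕ) (l α : ℝ), a ≤ b → 0 < l → 1 ≤ α →
      (∀ n, a < n → n + k ≤ b → l ≤ dd k f n ∧ dd k f n ≤ α * l) →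
      ‖∑ n ∈ Finset.Ioc a b, ee (f n)‖ ≤ C * α * (((b : ℝ) - a) * l ^ (1 / (2 ^ k - 2) : ℝ) +
        ((b : ℝ) - a) ^ (1 - 4 / 2 ^ k : ℝ) * l ^ (-(1 / (2 ^ k - 2)) : ℝ)))
    (f : ℕ → ℝ) (a b : ℕ) (l α : ℝ) (hab : a ≤ b) (hl : 0 < l) (hα : 1 ≤ α)
    (hf : ∀ n, a < n → n + (k + 1) ≤ b → l ≤ dd (k + 1) f n ∧ dd (k + 1) f n ≤ α * l) :
    ‖∑ n ∈ Finset.Ioc a b, ee (f n)‖ ≤ 4 * C * α * (((b : ℝ) - a) * l ^ (1 / (2 ^ (k + 1) - 2) : ℝ) +
        ((b : ℝ) - a) ^ (1 - 4 / 2 ^ (k + 1) : ℝ) * l ^ (-(1 / (2 ^ (k + 1) - 2)) : ℝ)) := by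
  have h4 := KDT_two_pow k hk
  set E : ℝ := 2 ^ k - 2 with hE
  have hE2 : 2 ≤ E := by linarith
  have hE0 : 0 < E := by linarith
  set N : ℝ := (b : ℝ) - a with hN
  have hN0 : 0 ≤ N := by
    have : (a : ℝ) ≤ b := by exact_mod_cast hab
    linarith
  have hCα : 1 ≤ C * α := by nlinarith
  -- the trivial bound
  have htriv : ‖∑ n ∈ Finset.Ioc a b, ee (f n)‖ ≤ N := by
    refine (norm_sum_le _ _).trans ?_
    simp only [KDT_norm, sum_const, Nat.card_Ioc, nsmul_eq_mul, mul_one]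
    rw [Nat.cast_sub hab]
  have e1 : (2 : ℝ) ^ (k + 1) - 2 = 2 * (E + 1) := by
    rw [hE, pow_succ]
    ring
  have e2 : (1 - 4 / 2 ^ (k + 1) : ℝ) = 1 - 2 / 2 ^ k := by
    rw [pow_succ]
    field_simp
    ring
  rw [e1, e2]
  set P : ℝ := N ^ (1 - 2 / 2 ^ k : ℝ) with hP
  have hP0 : 0 ≤ P := Real.rpow_nonneg hN0 _
  set u : ℝ := l ^ (1 / (E + 1)) with hu
  have hu0 : 0 < u := Real.rpow_pos_of_pos hl _
  have elu : u ^ (E + 1) = l := by
    rw [hu, ← Real.rpow_mul hl.le, one_div_mul_cancel (by linarith), Real.rpow_one]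
  have esu : l ^ (1 / (2 * (E + 1))) = Real.sqrt u := by
    rw [Real.sqrt_eq_rpow, hu, ← Real.rpow_mul hl.le]
    congr 1
    field_simp
  have esu' : l ^ (-(1 / (2 * (E + 1)))) = 1 / Real.sqrt u := by
    rw [Real.rpow_neg hl.le, esu, one_div]
  rw [esu, esu', mul_one_div]
  have hsu0 : 0 < Real.sqrt u := Real.sqrt_pos.mpr hu0
  rcases lt_or_ge 1 l with hl1 | hl1
  · -- `l > 1`
    have h1 : 1 ≤ Real.sqrt u := by
      rw [Real.one_le_sqrt]
      exact Real.one_le_rpow hl1.le (by positivity)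
    have h2 : N ≤ N * Real.sqrt u := le_mul_of_one_le_right hN0 h1
    have h3 : 0 ≤ P / Real.sqrt u := by positivity
    calc _ ≤ N := htriv
      _ ≤ 1 * (N * Real.sqrt u + P / Real.sqrt u) := by linarith
      _ ≤ 4 * C * α * (N * Real.sqrt u + P / Real.sqrt u) := by
        refine mul_le_mul_of_nonneg_right (by linarith) (by positivity)
  have hu1 : u ≤ 1 := Real.rpow_le_one hl.le hl1 (by positivity)
  rcases Nat.eq_or_lt_of_le hab with hab' | hab'
  · -- empty sum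
    subst hab'
    simp only [Finset.Ioc_self, sum_empty, norm_zero]
    have : 0 ≤ N * Real.sqrt u + P / Real.sqrt u := by positivity
    have : 0 ≤ 4 * C * α := by linarith
    positivity
  have hN1 : 1 ≤ N := by
    have : (a : ℝ) + 1 ≤ b := by exact_mod_cast hab'
    linarith
  set Q : ℕ := ⌈1 / u⌉₊ with hQ
  have hQ1 : 1 / u ≤ Q := Nat.le_ceil _
  have h1u : 1 ≤ 1 / u := by
    rw [le_div_iff₀ hu0]
    linarith
  have hQ2 : (Q : ℝ) ≤ 2 / u := by
    have := (Nat.ceil_lt_add_one (a := 1 / u) (by positivity)).le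
    have h2 : (2 : ℝ) / u = 1 / u + 1 / u := by ring
    linarith
  have hQpos : 1 ≤ Q := by
    have : (1 : ℝ) ≤ Q := h1u.trans hQ1
    exact_mod_cast this
  have hQ0 : (0 : ℝ) < Q := by exact_mod_cast hQpos
  have hPN : Real.sqrt N ≤ P := by
    rw [Real.sqrt_eq_rpow, hP]
    refine Real.rpow_le_rpow_of_exponent_le hN1 ?_
    have : (2 : ℝ) / 2 ^ k ≤ 1 / 2 := by
      rw [div_le_iff₀ (by positivity)]
      linarith
    linarith
  rcases lt_or_ge b (a + Q) with hbQ | hbQ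
  · -- `N < Q`
    have h1 : N ≤ Q := by
      have : (b : ℝ) < a + Q := by exact_mod_cast hbQ
      linarith
    have h2 : N * u ≤ 2 := by
      have h3 : N ≤ 2 / u := h1.trans hQ2
      rw [le_div_iff₀ hu0] at h3
      exact h3
    have h3 := KDT_small N P u hN1 hu0 hPN h2
    have h5 : 0 ≤ N * Real.sqrt u := by positivity
    have h6 : 0 ≤ P / Real.sqrt u := by positivity
    calc _ ≤ N := htriv
      _ ≤ 2 * (N * Real.sqrt u + P / Real.sqrt u) := by linarith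
      _ ≤ 4 * C * α * (N * Real.sqrt u + P / Real.sqrt u) := by
        refine mul_le_mul_of_nonneg_right (by linarith) (by positivity)
  -- the main case
  have hW := KDT_WD (fun n => ee (f n)) a b Q (fun n => (KDT_norm _).le) hQpos hbQ
  simp only [KDT_mul] at hW
  have hin : ∀ q ∈ Ioo 0 Q, ‖∑ n ∈ Finset.Ioc a (b - q), ee (f (n + q) - f n)‖ ≤
      C * α * (N * ((q : ℝ) * l) ^ (1 / E) + N ^ (1 - 4 / 2 ^ k : ℝ) * ((q : ℝ) * l) ^ (-(1 / E))) := by
    intro q hq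
    have hq0 := (mem_Ioo.mp hq).1
    have hq1 := (mem_Ioo.mp hq).2
    have hq0' : (0 : ℝ) < q := by exact_mod_cast hq0
    have h := ih (fun n => f (n + q) - f n) a (b - q) ((q : ℝ) * l) α (by omega) (by positivity) hα
      (by
        intro n hn hn2
        rw [KDT_dd_shift]
        constructor
        · calc (q : ℝ) * l = ∑ _j ∈ range q, l := by rw [sum_const, card_range, nsmul_eq_mul]
            _ ≤ _ := sum_le_sum fun j hj => (hf (n + j) (by omega) (by have := mem_range.mp hj; omega)).1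
        · calc ∑ j ∈ range q, dd (k + 1) f (n + j) ≤ ∑ _j ∈ range q, α * l :=
                sum_le_sum fun j hj => (hf (n + j) (by omega) (by have := mem_range.mp hj; omega)).2
            _ = α * ((q : ℝ) * l) := by rw [sum_const, card_range, nsmul_eq_mul]; ring)
    refine h.trans ?_
    have hb : ((b - q : ℕ) : ℝ) - a ≤ N := by
      rw [Nat.cast_sub (by omega)]
      linarith
    have hb0 : (0 : ℝ) ≤ ((b - q : ℕ) : ℝ) - a := by
      have : (a : ℝ) ≤ ((b - q : ℕ) : ℝ) := by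
        have : a ≤ b - q := by omega
        exact_mod_cast this
      linarith
    refine mul_le_mul_of_nonneg_left ?_ (by linarith)
    refine add_le_add (mul_le_mul_of_nonneg_right hb (by positivity)) ?_
    refine mul_le_mul_of_nonneg_right ?_ (by positivity)
    refine Real.rpow_le_rpow hb0 hb ?_
    have : (4 : ℝ) / 2 ^ k ≤ 1 := by
      rw [div_le_iff₀ (by positivity)]
      linarith
    linarith
  have hsum : ∑ q ∈ Ioo 0 Q, ‖∑ n ∈ Finset.Ioc a (b - q), ee (f (n + q) - f n)‖ ≤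
      C * α * (N * (Q * ((Q : ℝ) * l) ^ (1 / E)) +
        N ^ (1 - 4 / 2 ^ k : ℝ) * (2 * (Q * ((Q : ℝ) * l) ^ (-(1 / E))))) := by
    refine (sum_le_sum hin).trans ?_
    rw [← mul_sum, sum_add_distrib, ← mul_sum, ← mul_sum]
    refine mul_le_mul_of_nonneg_left ?_ (by linarith)
    have hθ2 : 1 / E ≤ 1 / 2 := one_div_le_one_div_of_le (by norm_num) hE2
    refine add_le_add (mul_le_mul_of_nonneg_left (KDT_S1 Q l (1 / E) hl (by positivity)) hN0)
      (mul_le_mul_of_nonneg_left (KDT_S2 Q l (1 / E) hl hθ2) (by positivity))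
  obtain ⟨n1, n2⟩ := KDT_num E u Q hE2 hu0 hu1 hQ1 hQ2
  rw [elu] at n1 n2
  have eP : N * N ^ (1 - 4 / 2 ^ k : ℝ) = P ^ 2 := by
    have e7 : N * N ^ (1 - 4 / 2 ^ k : ℝ) = N ^ (1 + (1 - 4 / 2 ^ k) : ℝ) := by
      rw [Real.rpow_add (by linarith), Real.rpow_one]
    have e8 : P ^ 2 = N ^ ((1 - 2 / 2 ^ k) + (1 - 2 / 2 ^ k) : ℝ) := by
      rw [Real.rpow_add (by linarith), hP]
      ring
    rw [e7, e8]
    congr 1
    ring
  have hsq : ‖∑ n ∈ Finset.Ioc a b, ee (f n)‖ ^ 2 ≤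
      10 * (C * α) * (N ^ 2 * u + P ^ 2 / u) := by
    refine hW.trans ?_
    have hA : 0 ≤ N / Q := by positivity
    have h1 : 2 * (N / Q) * (N + 2 * ∑ q ∈ Ioo 0 Q, ‖∑ n ∈ Finset.Ioc a (b - q), ee (f (n + q) - f n)‖) ≤
        2 * (N / Q) * (N + 2 * (C * α * (N * (Q * (2 * u)) +
        N ^ (1 - 4 / 2 ^ k : ℝ) * (2 * (Q * (1 / u)))))) := by
      refine mul_le_mul_of_nonneg_left ?_ (by linarith)
      have h2 : C * α * (N * (Q * ((Q : ℝ) * l) ^ (1 / E)) +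
        N ^ (1 - 4 / 2 ^ k : ℝ) * (2 * (Q * ((Q : ℝ) * l) ^ (-(1 / E))))) ≤
        C * α * (N * (Q * (2 * u)) + N ^ (1 - 4 / 2 ^ k : ℝ) * (2 * (Q * (1 / u)))) := by
        refine mul_le_mul_of_nonneg_left ?_ (by linarith)
        refine add_le_add (mul_le_mul_of_nonneg_left (mul_le_mul_of_nonneg_left n1 hQ0.le) hN0)
          (mul_le_mul_of_nonneg_left ?_ (by positivity))
        refine mul_le_mul_of_nonneg_left (mul_le_mul_of_nonneg_left n2 hQ0.le) (by norm_num)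
      linarith
    refine h1.trans ?_
    have h3 : 2 * (N / Q) * (N + 2 * (C * α * (N * (Q * (2 * u)) +
        N ^ (1 - 4 / 2 ^ k : ℝ) * (2 * (Q * (1 / u)))))) =
        2 * N ^ 2 * (1 / Q) + 8 * (C * α) * (N ^ 2 * u) + 8 * (C * α) * ((N * N ^ (1 - 4 / 2 ^ k : ℝ)) / u) := by
      field_simp
      ring
    rw [h3, eP]
    have h5 : 1 / (Q : ℝ) ≤ u := by
      rw [div_le_iff₀ hQ0]
      rw [div_le_iff₀ hu0] at hQ1
      linarith
    have h6 : 2 * N ^ 2 * (1 / Q) ≤ 2 * (C * α) * (N ^ 2 * u) := by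
      have h7 : 2 * N ^ 2 * (1 / Q) ≤ 2 * N ^ 2 * u := mul_le_mul_of_nonneg_left h5 (by positivity)
      have h8 : 1 * (2 * N ^ 2 * u) ≤ (C * α) * (2 * N ^ 2 * u) :=
        mul_le_mul_of_nonneg_right hCα (by positivity)
      linarith
    have h9 : 0 ≤ (C * α) * (P ^ 2 / u) := by positivity
    linarith
  have hfin : ‖∑ n ∈ Finset.Ioc a b, ee (f n)‖ ^ 2 ≤
      (4 * C * α * (N * Real.sqrt u + P / Real.sqrt u)) ^ 2 := by
    refine hsq.trans ?_
    have e5 : Real.sqrt u ^ 2 = u := Real.sq_sqrt hu0.le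
    have e6 : (4 * C * α * (N * Real.sqrt u + P / Real.sqrt u)) ^ 2 =
        16 * (C * α) ^ 2 * (N ^ 2 * Real.sqrt u ^ 2 + 2 * N * P + P ^ 2 / Real.sqrt u ^ 2) := by
      field_simp
      ring
    rw [e6, e5]
    have h1 : 10 * (C * α) ≤ 16 * (C * α) ^ 2 := by nlinarith
    have h2 : 0 ≤ N ^ 2 * u + P ^ 2 / u := by positivity
    have h3 : 0 ≤ 16 * (C * α) ^ 2 * (2 * N * P) := by positivity
    have h5 := mul_le_mul_of_nonneg_right h1 h2
    nlinarith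
  have hnn : 0 ≤ 4 * C * α * (N * Real.sqrt u + P / Real.sqrt u) := by
    have : 0 ≤ 4 * C * α := by linarith
    positivity
  exact le_of_sq_le_sq hfin hnn

theorem KDT : KDT_stmt := by
  intro k hk
  induction k, hk using Nat.le_induction with
  | base =>
    refine ⟨20, by norm_num, fun f a b l α hab hl hα hf => ?_⟩
    have h := KDT_V2 f a b l α hab hl hα (by
      intro n hn hn2
      have h1 := hf n hn (by omega)
      have e : dd 2 f n = f (n + 2) - 2 * f (n + 1) + f n := by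
        show (f (n + 1 + 1) - f (n + 1)) - (f (n + 1) - f n) = _
        ring
      rw [e] at h1
      exact h1)
    have e1 : (1 / (2 ^ 2 - 2) : ℝ) = 1 / 2 := by norm_num
    have e2 : (1 - 4 / 2 ^ 2 : ℝ) = 0 := by norm_num
    rw [e1, e2, Real.rpow_zero, one_mul]
    exact h
  | succ k hk ih =>
    obtain ⟨C, hC, h⟩ := ih
    refine ⟨4 * C, by linarith, fun f a b l α hab hl hα hf => ?_⟩
    exact KDT_step k hk C hC h f a b l α hab hl hα hf

end Pool.Agent.UN
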