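import Pool.Agent.helper13.UN.Spec2

/-!
# Project UN (MP_cf4097_nt), version 4: ALL UNITARY HECKE CHARACTERS (any infinity type)

Definitions. Paper proofs: /team-store/H8_MP_cf4097_nt_helper13_v3.md, H9_MP_cf4097_nt_helper10_UH.md, H8_MP_cf4097_nt_helper1_v4.md.
An infinity type is `τ : InfinitePlace K → ℝ`, `m : InfinitePlace K → ℤ` (`m w = 0` at the real places).
-/

set_option autoImplicit false

open NumberField Complex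

namespace Pool.Agent.UN

section defs3

variable {K : Type} [Field K] [NumberField K]

/-- the archimedean character: `∏ |x|_w^(-i n_w τ_w) (x_w / |x_w|)^(m_w)` -/
noncomputable def Ar (τ : InfinitePlace K → ℝ) (m : InfinitePlace K → ℤ) (x : 𝓞 K) : ℂ :=
  ∏ w : InfinitePlace K, ph ((w.mult : ℝ) * τ w) (Real.log (w (x : K))) *
    (w.embedding (x : K) / (‖w.embedding (x : K)‖ : ℂ)) ^ (m w)

/-- `χ` is a primitive unitary Hecke character with conductor `f` and infinity type `(τ, m)` (as a function on the ideals):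
completely multiplicative, of modulus `1` on the ideals prime to `f`, `0` on the others, `χ((x)) / Ar(x)` depends only on
`x mod f` and the signs at the real places, and no larger ideal `g` has this property. -/
structure HCharG (f : Ideal (𝓞 K)) (χ : Ideal (𝓞 K) → ℂ) (τ : InfinitePlace K → ℝ) (m : InfinitePlace K → ℤ) :
    Prop where
  f0 : f ≠ ⊥
  bot : χ ⊥ = 0
  one : χ ⊤ = 1
  mul : ∀ a b : Ideal (𝓞 K), χ (a * b) = χ a * χ b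
  unit : ∀ a : Ideal (𝓞 K), a ≠ ⊥ → a ⊔ f = ⊤ → ‖χ a‖ = 1
  zero : ∀ a : Ideal (𝓞 K), a ⊔ f ≠ ⊤ → χ a = 0
  real : ∀ w : InfinitePlace K, w.IsReal → m w = 0
  per : ∀ x y : 𝓞 K, x ≠ 0 → y ≠ 0 → x - y ∈ f → (∀ φ : K →+* ℝ, 0 < φ x * φ y) →
    χ (Ideal.span {x}) * Ar τ m y = χ (Ideal.span {y}) * Ar τ m x
  prim : ∀ g : Ideal (𝓞 K), f < g → ∃ x : 𝓞 K, x ≠ 0 ∧ x - 1 ∈ g ∧ Ideal.span {x} ⊔ f = ⊤ ∧
    (∀ φ : K →+* ℝ, 0 < φ x) ∧ χ (Ideal.span {x}) ≠ Ar τ m x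

/-- `L` is the L-function of `χ` (conductor `f`, infinity type `(τ, m)`): entire, polynomial growth in vertical strips,
Dirichlet series, Hecke's functional equation with the Gamma factors `Γ_ℝ(s + iτ_w + e)` (real places) and
`Γ_ℝ(s + iτ_w + |m_w|/2) Γ_ℝ(s + iτ_w + |m_w|/2 + 1)` (complex places), written as a product over the embeddings
with shifts `e = 0` or `1`. -/
structure HLG (f : Ideal (𝓞 K)) (χ : Ideal (𝓞 K) → ℂ) (τ : InfinitePlace K → ℝ) (m : InfinitePlace K → ℤ)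
    (L : ℂ → ℂ) : Prop where
  entire : Differentiable ℂ L
  growth : ∀ A : ℝ, ∃ B : ℝ, ∀ s : ℂ, |s.re| ≤ A → ‖L s‖ ≤ B * (1 + |s.im|) ^ B
  series : ∀ s : ℂ, 1 < s.re → L s = ∑' a : Ideal (𝓞 K), χ a * (Nm a : ℂ) ^ (-s)
  fe : ∃ (c : ℂ) (e : (K →+* ℂ) → ℝ), ‖c‖ = 1 ∧ (∀ σ, e σ = 0 ∨ e σ = 1) ∧ ∀ s : ℂ,
    ((Dc K * Nm f : ℝ) : ℂ) ^ (s / 2) * L s *
      ∏ σ : K →+* ℂ, (Gammaℝ (1 - s - τ (InfinitePlace.mk σ) * I + |(m (InfinitePlace.mk σ) : ℝ)| / 2 + e σ))⁻¹ =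
    c * (((Dc K * Nm f : ℝ) : ℂ) ^ ((1 - s) / 2) * (starRingEnd ℂ) (L (1 - (starRingEnd ℂ) s)) *
      ∏ σ : K →+* ℂ, (Gammaℝ (s + τ (InfinitePlace.mk σ) * I + |(m (InfinitePlace.mk σ) : ℝ)| / 2 + e σ))⁻¹)

/-- the conductor without the discriminant: `N(f) ∏ (1 + |t + τ_w| + |m_w|)^(n_w)` -/
noncomputable def QG (f : Ideal (𝓞 K)) (τ : InfinitePlace K → ℝ) (m : InfinitePlace K → ℤ) (t : ℝ) : ℝ :=
  Nm f * ∏ w : InfinitePlace K, (1 + |t + τ w| + |(m w : ℝ)|) ^ w.mult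

/-- multiplicative functions on the ideals: the properties of `χ` which do not involve the elements -/
structure HM (f : Ideal (𝓞 K)) (χ : Ideal (𝓞 K) → ℂ) : Prop where
  f0 : f ≠ ⊥
  bot : χ ⊥ = 0
  one : χ ⊤ = 1
  mul : ∀ a b : Ideal (𝓞 K), χ (a * b) = χ a * χ b
  unit : ∀ a : Ideal (𝓞 K), a ≠ ⊥ → a ⊔ f = ⊤ → ‖χ a‖ = 1
  zero : ∀ a : Ideal (𝓞 K), a ⊔ f ≠ ⊤ → χ a = 0

/-- a primitive character of `(𝓞 K / f)ˣ × signs`, as a function on the elements -/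
structure GCP (f : Ideal (𝓞 K)) (G : 𝓞 K → ℂ) : Prop extends GC f G where
  prim : ∀ g : Ideal (𝓞 K), f < g → ∃ x : 𝓞 K, x ≠ 0 ∧ x - 1 ∈ g ∧ Ideal.span {x} ⊔ f = ⊤ ∧
    (∀ φ : K →+* ℝ, 0 < φ x) ∧ G x ≠ 1

/-- the coefficients of the phase: `β_w = n_w τ_w + i m_w` -/
noncomputable def bt (τ : InfinitePlace K → ℝ) (m : InfinitePlace K → ℤ) (w : InfinitePlace K) : ℂ :=
  ((w.mult : ℝ) * τ w : ℝ) + (m w : ℝ) * I

/-- the numbers `z_w = v_w / x_w` -/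
noncomputable def zw (x v : 𝓞 K) (w : InfinitePlace K) : ℂ := w.embedding (v : K) / w.embedding (x : K)

end defs3

/-- `GW β z 0 x = ∑ Re (β_i Log (1 + x z_i))` and `GW β z (j+1) x` is its derivative of order `j + 1` -/
noncomputable def GW {ι : Type} [Fintype ι] (β z : ι → ℂ) : ℕ → ℝ → ℝ
  | 0, x => ∑ i, (β i * Complex.log (1 + (x : ℂ) * z i)).re
  | j + 1, x => (-1) ^ j * (j.factorial : ℝ) * (∑ i, β i * (z i / (1 + (x : ℂ) * z i)) ^ (j + 1)).re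

/-! ## The theorem -/

/-- **(PH)**: cancellation for all unitary Hecke characters. -/
def PH_stmt : Prop := ∀ n : ℕ, 1 ≤ n → ∃ d : ℝ, 0 < d ∧ ∀ ε : ℝ, 0 < ε → ∃ C : ℝ, 1 ≤ C ∧
  ∀ (K : Type) [Field K] [NumberField K], Module.finrank ℚ K = n →
  ∀ (f : Ideal (𝓞 K)) (χ : Ideal (𝓞 K) → ℂ) (τ : InfinitePlace K → ℝ) (m : InfinitePlace K → ℤ) (t X : ℝ)
    (V : ℝ → ℂ), HCharG f χ τ m → VV V → (Dc K) ^ (1 / 2 : ℝ) * QG f τ m t ^ (1 / 2 - d) ≤ X →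
    ‖SS χ t X V‖ ≤ C * X ^ (1 + ε) * QG f τ m t ^ (-d)

/-- **(UH)**: the subconvex bound for all unitary Hecke characters of all number fields of degree `n`. -/
def UH_stmt : Prop := ∀ n : ℕ, 1 ≤ n → ∃ δ : ℝ, 0 < δ ∧ ∀ ε : ℝ, 0 < ε → ∃ C : ℝ,
  ∀ (K : Type) [Field K] [NumberField K], Module.finrank ℚ K = n →
  ∀ (f : Ideal (𝓞 K)) (χ : Ideal (𝓞 K) → ℂ) (τ : InfinitePlace K → ℝ) (m : InfinitePlace K → ℤ) (L : ℂ → ℂ)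
    (t : ℝ), HCharG f χ τ m → HLG f χ τ m L →
    ‖L (1 / 2 + t * I)‖ ≤ C * (Dc K * QG f τ m t) ^ (1 / 4 + ε) * QG f τ m t ^ (-δ)

/-! ## The exponential sum and the line -/

/-- **COREW**: power saving if one index `i₀` dominates: `δ μ ≤ ‖z i₀‖ ≤ μ`, `μ = δ^E T^(-η)`, all others `≤ δ^E μ`, and `β i₀, z i₀` are real or
`z i₀` is not nearly real. The quadratic phase is arbitrary. -/
def COREW_stmt : Prop := ∀ (n : ℕ) (η : ℝ), 1 ≤ n → 0 < η → η ≤ 1 / 4 → ∃ (E : ℕ) (d c₀ C : ℝ), 1 ≤ E ∧ 0 < d ∧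
  0 < c₀ ∧ c₀ ≤ 1 / 20 ∧ 1 ≤ C ∧
  ∀ (ι : Type) [Fintype ι], Fintype.card ι ≤ n → ∀ (β z : ι → ℂ) (α : ℕ → ℝ) (i₀ : ι) (T δ : ℝ) (H : ℕ),
    1 ≤ T → 0 < δ → δ ≤ c₀ → (∀ i, ‖β i‖ ≤ 2 * T) → T / 4 ≤ ‖β i₀‖ →
    ‖z i₀‖ ≤ δ ^ E * T ^ (-η) → δ ^ (E + 1) * T ^ (-η) ≤ ‖z i₀‖ →
    (∀ i, i ≠ i₀ → ‖z i‖ ≤ δ ^ (2 * E) * T ^ (-η)) →
    ((β i₀).im = 0 ∧ (z i₀).im = 0 ∨ δ * ‖z i₀‖ ≤ |(z i₀).im|) → (H : ℝ) ≤ T ^ η →
    ‖∑ h ∈ Finset.range H, ph 1 (GW β z 0 h) *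
      ee (∑ l ∈ Finset.range 2, α l * (h : ℝ) ^ (l + 1))‖ ≤ C * δ⁻¹ ^ (3 * E) * T ^ (η - d)

/-- **LNA**: the archimedean character on a line. -/
def LNA_stmt : Prop := ∀ (K : Type) [Field K] [NumberField K] (τ : InfinitePlace K → ℝ) (m : InfinitePlace K → ℤ)
  (x v : 𝓞 K) (z : ℝ) (H : ℕ), x ≠ 0 → 0 ≤ z → (H : ℝ) * z ≤ 1 / 10 →
  (∀ w : InfinitePlace K, w (v : K) ≤ z * w (x : K)) →
  ‖Ar τ m x‖ = 1 ∧ (∀ w, ‖zw x v w‖ ≤ z) ∧ (∀ w, ‖zw x v w‖ = w (v : K) / w (x : K)) ∧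
  (∀ w : InfinitePlace K, w.IsReal → (zw x v w).im = 0) ∧
  ∀ h : ℕ, h ≤ H → Ar τ m (x + (h : 𝓞 K) * v) = Ar τ m x * ph 1 (GW (bt τ m) (zw x v) 0 h)

end Pool.Agent.UN
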